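import Pool.Agent.H429.T5.Stm
import Pool.Agent.H429.T3.F1
import Pool.Graph.R_pool_sql_team_seeded_3997aac3.Q286.EQ.MW

/-!
# The points of an elliptic curve over the algebraic closure as a Galois module (helper429)
-/

set_option autoImplicit false
set_option linter.all false

namespace Pool.Agent.H429.T5

open NumberField Pool.Agent.W569.FM Pool.Agent.W215.FM Pool.Agent.X290.Reg Pool.Agent.H429.T3
open WeierstrassCurve WeierstrassCurve.Affine
open scoped Pointwise Classical

section
variable {K : Type} [Field K]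

/-- the points over the algebraic closure -/
abbrev Pts (V : WeierstrassCurve K) : Type :=
  (V.map (algebraMap K (AlgebraicClosure K))).toAffine.Point

theorem ga_eq (V : WeierstrassCurve K) (σ : GF K) {x y : AlgebraicClosure K}
    (h : (V.map (algebraMap K (AlgebraicClosure K))).toAffine.Nonsingular x y)
    (hx : σ x = x) (hy : σ y = y) : ga V σ (Point.some x y h) = Point.some x y h := by
  obtain ⟨h', e⟩ := ga_some V σ h
  rw [e]
  exact some_eq _ _ hx hy

theorem eq_of_ga (V : WeierstrassCurve K) (σ : GF K) {x y : AlgebraicClosure K}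
    (h : (V.map (algebraMap K (AlgebraicClosure K))).toAffine.Nonsingular x y)
    (e : ga V σ (Point.some x y h) = Point.some x y h) : σ x = x ∧ σ y = y := by
  obtain ⟨h', e'⟩ := ga_some V σ h
  rw [e'] at e
  injection e with e1 e2
  exact ⟨e1, e2⟩

/-- the Galois action -/
@[instance_reducible] noncomputable def galAct (V : WeierstrassCurve K) : DistribMulAction (GF K) (Pts V) where
  smul σ P := ga V σ P
  one_smul P := by
    show ga V 1 P = P
    match P with
    | 0 => exact map_zero _
    | .some x y h => exact ga_eq V 1 h rfl rfl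
  mul_smul σ τ P := by
    show ga V (σ * τ) P = ga V σ (ga V τ P)
    match P with
    | 0 => rw [map_zero, map_zero, map_zero]
    | .some x y h => rfl
  smul_zero σ := map_zero (ga V σ)
  smul_add σ P Q := map_add (ga V σ) P Q

theorem act_def (V : WeierstrassCurve K) (σ : GF K) (P : Pts V) :
    (galAct V).smul σ P = ga V σ P := rfl

theorem stab_elem (z : AlgebraicClosure K) : IsOpen {g : GF K | g z = z} := by
  have h1 := stabilizer_isOpen_of_isIntegral (K := K) z
  exact h1

theorem stab_open_pt (V : WeierstrassCurve K) (P : Pts V) :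
    letI := galAct V
    IsOpen (MulAction.stabilizer (GF K) P : Set (GF K)) := by
  letI := galAct V
  match P with
  | 0 =>
    have : (MulAction.stabilizer (GF K) (0 : Pts V) : Set (GF K)) = Set.univ := by
      ext g
      simp only [SetLike.mem_coe, MulAction.mem_stabilizer_iff, Set.mem_univ, iff_true]
      show ga V g 0 = 0
      exact map_zero (ga V g)
    rw [this]
    exact isOpen_univ
  | .some x y h =>
    have : (MulAction.stabilizer (GF K) (Point.some x y h : Pts V) : Set (GF K)) =
        {g : GF K | g x = x} ∩ {g : GF K | g y = y} := by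
      ext g
      rw [SetLike.mem_coe, MulAction.mem_stabilizer_iff]
      exact ⟨fun e => eq_of_ga V g h e, fun e => ga_eq V g h e.1 e.2⟩
    rw [this]
    exact (stab_elem x).inter (stab_elem y)

/-- the curve `y² = x³ + a x² + b x + c` -/
noncomputable def crv (a b c : 𝓞 K) : WeierstrassCurve K := ⟨0, (a : K), 0, (b : K), (c : K)⟩

/-- the discriminant of `x³ + a x² + b x + c` -/
noncomputable def dsc (a b c : 𝓞 K) : 𝓞 K :=
  a ^ 2 * b ^ 2 - 4 * b ^ 3 - 4 * a ^ 3 * c - 27 * c ^ 2 + 18 * a * b * c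

end

section
variable {K : Type} [Field K] [NumberField K] (a b c : 𝓞 K)

/-- the zeros of the cubic polynomial -/
structure Rts (e : Fin 3 → OO K) : Prop where
  s1 : algebraMap (𝓞 K) (OO K) a = -(e 0 + e 1 + e 2)
  s2 : algebraMap (𝓞 K) (OO K) b = e 0 * e 1 + e 0 * e 2 + e 1 * e 2
  s3 : algebraMap (𝓞 K) (OO K) c = -(e 0 * e 1 * e 2)

theorem exists_rts (z : AlgebraicClosure K) (hz' : z ^ 3 + algebraMap K (AlgebraicClosure K) a * z ^ 2 +
    algebraMap K (AlgebraicClosure K) b * z + algebraMap K (AlgebraicClosure K) c = 0) :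
    ∃ e, Rts a b c e ∧ (e 0 : AlgebraicClosure K) = z := by
  let i : K →+* AlgebraicClosure K := algebraMap K (AlgebraicClosure K)
  obtain ⟨s, hs⟩ := IsAlgClosed.exists_pow_nat_eq (k := AlgebraicClosure K)
    ((i a + z) ^ 2 - 4 * (i b + i a * z + z ^ 2)) (n := 2) (by norm_num)
  have hz' : z ^ 3 + i a * z ^ 2 + i b * z + i c = 0 := hz'
  set E : Fin 3 → AlgebraicClosure K := ![z, (-(i a + z) + s) / 2, (-(i a + z) - s) / 2] with hE
  have hroot : ∀ j, E j ^ 3 + i a * E j ^ 2 + i b * E j + i c = 0 := by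
    intro j
    fin_cases j
    · exact hz'
    · simp only [hE, Fin.mk_one, Matrix.cons_val_one, Matrix.cons_val_zero]
      linear_combination (1 / 8 : AlgebraicClosure K) * (-(i a + z) + s - 2 * z) * hs + hz'
    · simp only [hE, Fin.reduceFinMk, Matrix.cons_val]
      linear_combination (1 / 8 : AlgebraicClosure K) * (-(i a + z) - s - 2 * z) * hs + hz'
  have hint : ∀ j, IsIntegral ℤ (E j) := by
    intro j
    have h1 : IsIntegral (𝓞 K) (E j) := by
      refine ⟨Polynomial.X ^ 3 + Polynomial.C a * Polynomial.X ^ 2 + Polynomial.C b * Polynomial.X +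
        Polynomial.C c, by monicity!, ?_⟩
      simp only [Polynomial.eval₂_add, Polynomial.eval₂_mul, Polynomial.eval₂_pow,
        Polynomial.eval₂_X, Polynomial.eval₂_C]
      exact hroot j
    exact isIntegral_trans (R := ℤ) (A := 𝓞 K) _ h1
  let e : Fin 3 → OO K := fun j => ⟨E j, hint j⟩
  refine ⟨e, ⟨?_, ?_, ?_⟩, rfl⟩
  · apply RingOfIntegers.ext
    show i a = -(E 0 + E 1 + E 2)
    simp only [hE, Matrix.cons_val_zero, Matrix.cons_val_one, Matrix.cons_val]
    ring
  · apply RingOfIntegers.ext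
    show i b = E 0 * E 1 + E 0 * E 2 + E 1 * E 2
    simp only [hE, Matrix.cons_val_zero, Matrix.cons_val_one, Matrix.cons_val]
    linear_combination (1 / 4 : AlgebraicClosure K) * hs
  · apply RingOfIntegers.ext
    show i c = -(E 0 * E 1 * E 2)
    simp only [hE, Matrix.cons_val_zero, Matrix.cons_val_one, Matrix.cons_val]
    linear_combination hz' - (1 / 4 : AlgebraicClosure K) * z * hs

variable {a b c}

theorem Rts.disc {e : Fin 3 → OO K} (h : Rts a b c e) : algebraMap (𝓞 K) (OO K) (dsc a b c) =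
    ((e 0 - e 1) * (e 0 - e 2) * (e 1 - e 2)) ^ 2 := by
  simp only [dsc, map_sub, map_add, map_mul, map_pow, map_ofNat, h.s1, h.s2, h.s3]
  ring

theorem Rts.sub_notMem {e : Fin 3 → OO K} (h : Rts a b c e) {Q : Ideal (OO K)} (hQ : Q.IsMaximal)
    (hd : algebraMap (𝓞 K) (OO K) (dsc a b c) ∉ Q) : ∀ i j, i ≠ j → e i - e j ∉ Q := by
  rw [h.disc] at hd
  have h01 : e 0 - e 1 ∉ Q := fun h => hd (Q.pow_mem_of_mem (Q.mul_mem_right _ (Q.mul_mem_right _ h)) 2 (by norm_num))
  have h02 : e 0 - e 2 ∉ Q := fun h => hd (Q.pow_mem_of_mem (Q.mul_mem_right _ (Q.mul_mem_left _ h)) 2 (by norm_num))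
  have h12 : e 1 - e 2 ∉ Q := fun h => hd (Q.pow_mem_of_mem (Q.mul_mem_left _ h) 2 (by norm_num))
  have hs : ∀ i j, e i - e j ∉ Q → e j - e i ∉ Q := fun i j h h' => h (by
    have := Q.neg_mem h'
    rwa [neg_sub] at this)
  intro i j hij
  fin_cases i <;> fin_cases j <;>
    first
      | exact absurd rfl hij
      | exact h01
      | exact h02
      | exact h12
      | exact hs _ _ h01
      | exact hs _ _ h02
      | exact hs _ _ h12

theorem Rts.root_iff {e : Fin 3 → OO K} (h : Rts a b c e) (x : OO K) :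
    x ^ 3 + algebraMap (𝓞 K) (OO K) a * x ^ 2 + algebraMap (𝓞 K) (OO K) b * x +
      algebraMap (𝓞 K) (OO K) c = 0 ↔ ∃ i, x = e i := by
  have h1 : x ^ 3 + algebraMap (𝓞 K) (OO K) a * x ^ 2 + algebraMap (𝓞 K) (OO K) b * x +
      algebraMap (𝓞 K) (OO K) c = (x - e 0) * (x - e 1) * (x - e 2) := by
    rw [h.s1, h.s2, h.s3]; ring
  rw [h1, mul_eq_zero, mul_eq_zero, sub_eq_zero, sub_eq_zero, sub_eq_zero]
  constructor
  · rintro ((h | h) | h)
    · exact ⟨0, h⟩
    · exact ⟨1, h⟩
    · exact ⟨2, h⟩
  · rintro ⟨i, h⟩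
    fin_cases i
    · exact Or.inl (Or.inl h)
    · exact Or.inl (Or.inr h)
    · exact Or.inr h

theorem smul_alg (g : GF K) (x : 𝓞 K) :
    g • algebraMap (𝓞 K) (OO K) x = algebraMap (𝓞 K) (OO K) x := by
  apply RingOfIntegers.ext
  show g (algebraMap K (AlgebraicClosure K) x) = algebraMap K (AlgebraicClosure K) x
  exact g.commutes _

theorem Rts.perm {e : Fin 3 → OO K} (h : Rts a b c e) (g : GF K) (i : Fin 3) :
    ∃ j, g • e i = e j := by
  rw [← h.root_iff]
  have h1 := (h.root_iff (e i)).2 ⟨i, rfl⟩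
  have h2 := congrArg (fun x => g • x) h1
  simp only [smul_add, smul_mul', smul_pow', smul_zero, smul_alg] at h2
  exact h2

theorem Rts.inertia {e : Fin 3 → OO K} (h : Rts a b c e) {Q : Ideal (OO K)} (hQ : Q.IsMaximal)
    (hd : algebraMap (𝓞 K) (OO K) (dsc a b c) ∉ Q) {τ : GF K} (hτ : InInertia Q τ) :
    ∀ i, τ • e i = e i := by
  intro i
  obtain ⟨j, hj⟩ := h.perm τ i
  by_cases hij : j = i
  · rw [hj, hij]
  · exfalso
    have h1 := hτ (e i)
    rw [hj] at h1
    exact h.sub_notMem hQ hd j i hij h1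

theorem Rts.sq_fix {e : Fin 3 → OO K} (h : Rts a b c e) (u : GF K) (h0 : u • e 0 = e 0) (i : Fin 3) :
    u • (u • e i) = e i := by
  have hs : u • e 1 + u • e 2 = e 1 + e 2 := by
    have h1 := congrArg (fun x => u • x) h.s1
    simp only [smul_alg, smul_neg, smul_add, h0] at h1
    have h2 := h1.symm.trans h.s1
    have h3 := neg_injective h2
    rw [add_assoc, add_assoc] at h3
    exact add_left_cancel h3
  have key : u • (u • e 1) = e 1 ∧ u • (u • e 2) = e 2 := by
    obtain ⟨j, hj⟩ := h.perm u 1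
    have hcase : u • e 1 = e 1 ∨ u • e 1 = e 2 := by
      fin_cases j
      · left
        have h4 : u • e 1 = u • e 0 := by rw [h0]; exact hj
        have h5 : e 1 = e 0 := MulAction.injective u h4
        rw [h5, h0]
      · exact Or.inl hj
      · exact Or.inr hj
    rcases hcase with h1 | h1
    · have h2 : u • e 2 = e 2 := by
        rw [h1] at hs
        exact add_left_cancel hs
      exact ⟨by rw [h1, h1], by rw [h2, h2]⟩
    · have h2 : u • e 2 = e 1 := by
        rw [h1, add_comm (e 1)] at hs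
        exact add_left_cancel hs
      exact ⟨by rw [h1, h2], by rw [h2, h1]⟩
  fin_cases i
  · show u • (u • e 0) = e 0
    rw [h0, h0]
  · exact key.1
  · exact key.2

/-- the coefficients -/
theorem crv_map (a b c : 𝓞 K) : (crv a b c).map (algebraMap K (AlgebraicClosure K)) =
    ⟨0, algebraMap K (AlgebraicClosure K) a, 0, algebraMap K (AlgebraicClosure K) b,
      algebraMap K (AlgebraicClosure K) c⟩ := by
  simp [crv, WeierstrassCurve.map]

theorem Rts.coe1 {e : Fin 3 → OO K} (h : Rts a b c e) : algebraMap K (AlgebraicClosure K) a =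
    -((e 0 : AlgebraicClosure K) + e 1 + e 2) := by
  have := congrArg (fun x : OO K => (x : AlgebraicClosure K)) h.s1
  exact this

theorem Rts.coe2 {e : Fin 3 → OO K} (h : Rts a b c e) : algebraMap K (AlgebraicClosure K) b =
    (e 0 : AlgebraicClosure K) * e 1 + (e 0 : AlgebraicClosure K) * e 2 +
      (e 1 : AlgebraicClosure K) * e 2 := by
  have := congrArg (fun x : OO K => (x : AlgebraicClosure K)) h.s2
  exact this

theorem Rts.coe3 {e : Fin 3 → OO K} (h : Rts a b c e) : algebraMap K (AlgebraicClosure K) c =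
    -((e 0 : AlgebraicClosure K) * e 1 * e 2) := by
  have := congrArg (fun x : OO K => (x : AlgebraicClosure K)) h.s3
  exact this

/-- a point with `Y = 0` -/
theorem Rts.two_tors {e : Fin 3 → OO K} (h : Rts a b c e) {X : AlgebraicClosure K}
    (hX : ((crv a b c).map (algebraMap K (AlgebraicClosure K))).toAffine.Nonsingular X 0) :
    ∃ i, X = e i := by
  have h1 := (equation_iff X 0).1 hX.1
  rw [crv_map] at h1
  simp only [] at h1
  rw [h.coe1, h.coe2, h.coe3] at h1
  have h2 : (X - e 0) * (X - e 1) * (X - e 2) = 0 := by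
    linear_combination -h1
  rcases mul_eq_zero.1 h2 with h3 | h3
  · rcases mul_eq_zero.1 h3 with h3 | h3
    · exact ⟨0, sub_eq_zero.1 h3⟩
    · exact ⟨1, sub_eq_zero.1 h3⟩
  · exact ⟨2, sub_eq_zero.1 h3⟩

/-- one step -/
theorem Rts.step (half : S_HALF) (sign : S_SIGN) {e : Fin 3 → OO K} (h : Rts a b c e)
    {Q : Ideal (OO K)} (hQ : Q.IsMaximal) (h2 : ((2 : ℕ) : OO K) ∉ Q)
    (hd : algebraMap (𝓞 K) (OO K) (dsc a b c) ∉ Q) {τ : GF K} (hτ : InInertia Q τ)
    (y : Pts (crv a b c)) (hy : ga (crv a b c) τ (y + y) = y + y) : ga (crv a b c) τ y = y := by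
  have hfix := h.inertia hQ hd hτ
  have hfix' : ∀ i, τ (e i : AlgebraicClosure K) = e i := fun i =>
    congrArg (fun x : OO K => (x : AlgebraicClosure K)) (hfix i)
  match y with
  | 0 => exact map_zero _
  | Point.some X Y hxy =>
    by_cases hY : Y = 0
    · subst hY
      obtain ⟨i, hi⟩ := h.two_tors hxy
      refine ga_eq _ τ hxy ?_ (map_zero τ)
      rw [hi]
      exact hfix' i
    · obtain ⟨X2, Y2, h22, r, hadd, hr, hY2, hXr, hYr⟩ := half (AlgebraicClosure K)
        ((crv a b c).map (algebraMap K (AlgebraicClosure K))) (fun i => (e i : AlgebraicClosure K))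
        X Y hxy (by rw [crv_map]) (by rw [crv_map]) (by rw [crv_map]; exact h.coe1)
        (by rw [crv_map]; exact h.coe2) (by rw [crv_map]; exact h.coe3) hY
      rw [hadd] at hy
      obtain ⟨hX2, hY2'⟩ := eq_of_ga _ τ h22 hy
      have hprod : τ (r 0 * r 1 * r 2) = r 0 * r 1 * r 2 := by
        rcases sq_eq_sq_iff_eq_or_eq_neg.1 hY2 with h5 | h5
        · rw [← h5, hY2']
        · have h6 : r 0 * r 1 * r 2 = -Y2 := by rw [h5, neg_neg]
          rw [h6, map_neg, hY2']
      have hs := sign K Q hQ h2 τ hτ e r (h.sub_notMem hQ hd) hfix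
        (fun i j => by
          rw [hr i, hr j]
          show X2 - (e i : AlgebraicClosure K) - (X2 - e j) = (e j : AlgebraicClosure K) - e i
          ring)
        (fun i => by
          rw [← map_pow, hr i, map_sub, hX2]
          congr 1
          exact hfix' i)
        hprod
      refine ga_eq _ τ hxy ?_ ?_
      · rw [hXr, map_add, map_mul, map_add, map_add, hs 0, hs 1, hs 2]
        congr 1
        exact hfix' 0
      · rw [hYr, map_mul, map_mul, map_add, map_add, map_add, hs 0, hs 1, hs 2]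

theorem Rts.unram (half : S_HALF) (sign : S_SIGN) {e : Fin 3 → OO K} (h : Rts a b c e)
    {Q : Ideal (OO K)} (hQ : Q.IsMaximal) (h2 : ((2 : ℕ) : OO K) ∉ Q)
    (hd : algebraMap (𝓞 K) (OO K) (dsc a b c) ∉ Q) {τ : GF K} (hτ : InInertia Q τ) (n : ℕ) :
    ∀ y : Pts (crv a b c), ga (crv a b c) τ (2 ^ n • y) = 2 ^ n • y → ga (crv a b c) τ y = y := by
  induction n with
  | zero =>
    intro y hy
    rwa [pow_zero, one_smul] at hy
  | succ n ih =>
    intro y hy
    refine h.step half sign hQ h2 hd hτ y (ih (y + y) ?_)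
    rw [← two_smul ℕ y, smul_smul, ← pow_succ]
    exact hy

theorem Rts.two_pow {e : Fin 3 → OO K} (h : Rts a b c e) (y : Pts (crv a b c)) (hy : 2 • y = 0)
    (u : GF K) (hu : u • e 0 = e 0) : ga (crv a b c) (u * u) y = y := by
  match y, hy with
  | 0, _ => exact map_zero _
  | Point.some X Y hxy, hy =>
    have h1 : (Point.some X Y hxy : Pts (crv a b c)) = -Point.some X Y hxy := by
      rw [two_smul] at hy
      exact eq_neg_of_add_eq_zero_left hy
    rw [Point.neg_some] at h1
    injection h1 with _ h2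
    unfold negY at h2
    rw [crv_map] at h2
    simp only [zero_mul, sub_zero] at h2
    have hY : Y = 0 := self_eq_neg.1 h2
    subst hY
    obtain ⟨i, hi⟩ := h.two_tors hxy
    refine ga_eq _ _ hxy ?_ (map_zero _)
    rw [hi]
    have h3 := h.sq_fix u hu i
    exact congrArg (fun x : OO K => (x : AlgebraicClosure K)) h3

end

end Pool.Agent.H429.T5
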