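import Pool.Agent.H429.T5.Cur

/-!
# Rational points: Galois descent and the Mordell-Weil theorem (helper429)
-/

set_option autoImplicit false
set_option linter.all false

namespace Pool.Agent.H429.T5

open NumberField Pool.Agent.W569.FM Pool.Agent.W215.FM Pool.Agent.X290.Reg Pool.Agent.H429.T3
open WeierstrassCurve WeierstrassCurve.Affine
open scoped Pointwise Classical

variable {K : Type} [Field K] [NumberField K]

theorem fixed_rat (V : WeierstrassCurve K) (y : Pts V) (hy : ∀ g : GF K, ga V g y = y) :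
    ∃ Q : V.toAffine.Point, mp V (algebraMap K (AlgebraicClosure K)) Q = y := by
  match y, hy with
  | 0, _ => exact ⟨0, map_zero _⟩
  | Point.some X Y hxy, hy =>
    have h1 : ∀ z : AlgebraicClosure K, (∀ g : GF K, g z = z) →
        ∃ w : K, algebraMap K (AlgebraicClosure K) w = z := by
      intro z hz
      exact IntermediateField.mem_bot.1 ((InfiniteGalois.mem_bot_iff_fixed z).2 hz)
    obtain ⟨x₀, rfl⟩ := h1 X fun g => (eq_of_ga V g hxy (hy g)).1
    obtain ⟨y₀, rfl⟩ := h1 Y fun g => (eq_of_ga V g hxy (hy g)).2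
    have h0 : V.toAffine.Nonsingular x₀ y₀ :=
      (WeierstrassCurve.Affine.map_nonsingular V.toAffine
        (algebraMap K (AlgebraicClosure K)).injective x₀ y₀).1 hxy
    exact ⟨Point.some x₀ y₀ h0, rfl⟩

theorem fg_fixed (V : WeierstrassCurve K) (hΔ : V.Δ ≠ 0) (S : AddSubgroup (Pts V))
    (hS : ∀ y, y ∈ S → ∀ g : GF K, ga V g y = y) : Module.Finite ℤ S := by
  have h1 : AddGroup.FG V.toAffine.Point := Pool.Agent.Q286.EQ.mordell_weil K V hΔ
  have h2 : Module.Finite ℤ V.toAffine.Point := Module.Finite.iff_addGroup_fg.2 h1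
  have h3 : IsNoetherian ℤ V.toAffine.Point := inferInstance
  let f : V.toAffine.Point →ₗ[ℤ] Pts V := (mp V (algebraMap K (AlgebraicClosure K))).toIntLinearMap
  have h4 : IsNoetherian ℤ (LinearMap.range f) := inferInstance
  have h5 : AddSubgroup.toIntSubmodule S ≤ LinearMap.range f := by
    intro y hy
    obtain ⟨Q, hQ⟩ := fixed_rat V y (hS y hy)
    exact ⟨Q, hQ⟩
  have h6 : IsNoetherian ℤ (AddSubgroup.toIntSubmodule S) := isNoetherian_of_le h5
  exact (inferInstance : Module.Finite ℤ (AddSubgroup.toIntSubmodule S))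

theorem crv_disc (a b c : 𝓞 K) : (crv a b c).Δ = 16 * (dsc a b c : 𝓞 K) := by
  simp only [crv, WeierstrassCurve.Δ, WeierstrassCurve.b₂, WeierstrassCurve.b₄, WeierstrassCurve.b₆,
    WeierstrassCurve.b₈, dsc, map_sub, map_add, map_mul, map_pow, map_ofNat]
  ring

end Pool.Agent.H429.T5
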