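import Pool.Agent.H429.T5.DICH

/-!
# Project T5 (helper429): points over the completion are fixed by the decomposition group

`GF K = Gal(Kbar/K)`, `OO K = 𝓞 Kbar`, `InDec P d` (`∀ x, d • x ∈ P ↔ x ∈ P`): Main.lean; `dich : S_DICH`: DICH.lean.
-/

set_option autoImplicit false

namespace Pool.Agent.H429.T5

open NumberField IsDedekindDomain Pool.Agent.W569.FM Pool.Agent.W215.FM Pool.Agent.X290.Reg
open scoped Pointwise

/-- JOB LOC.  For every place `v` above `p` there are `Ω ⊇ K_v, Kbar` and a maximal ideal `P` of the ring of all algebraic integers such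
that the algebraic numbers in `K_v` are fixed by the decomposition group of `P`.
Proof.  `Ω = AlgebraicClosure (v.adicCompletion K)`, `j = algebraMap`, `ι = IsAlgClosed.lift` (over `K`, with the `K`-algebra structure of `Ω`
through `j`).  Let `O = v.adicCompletionIntegers K`, and `V` a valuation subring of `Ω` which dominates `j O`
(`LocalSubring.exists_le_valuationSubring`, Mathlib.RingTheory.Valuation.LocalSubring, or `ValuationSubring` / `exists_valuationRing_of_isMax`):
`j w ∈ V` for `w ∈ O`, `j w` is a non-unit of `V` if `w` is a non-unit of `O`.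
`P = {x : OO K | ι x is a non-unit of V}`: `ι x ∈ V` since `V` is integrally closed.  `P` is prime, contains `p`, so it is maximal
(`P ∩ ℤ = (p)`, `OO K` integral over `ℤ`: `Ideal.isMaximal_of_isIntegral_of_isMaximal_comap`).
Let `j w = ι z`, `d ∈ D_P`, `m ∈ ℕ`.  `K` is dense in `K_v` and `p ^ m O` is open: there is `k ∈ K` with `(w - k) / p ^ m ∈ O`.  Put
`x = (z - k) / p ^ m ∈ Kbar`, so `ι x = j ((w - k) / p ^ m) ∈ V`.  By `dich K P`: either `s x = t` with `s ∉ P`, or `s = t x`, `s ∉ P`, `t ∈ P`;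
the second is impossible (`ι s = ι t * ι x` is a non-unit of `V`).  So `(d s) (d x) = d t`, `d s ∉ P`, `ι (d s)` is a unit of `V` and `ι (d x) ∈ V`.
Hence `D = d z - z = p ^ m (d x - x)` has `ι D ∈ p ^ m V` for every `m`.  If `D ≠ 0`: `1 / D` is algebraic over `ℤ`, so there are
`N : ℕ`, `N ≠ 0`, and `u : OO K` with `N = u D` (`exists_integral_multiple`); so `N ∈ p ^ m V` for all `m`.  `N = p ^ a N'`, `p ∤ N'`, `m = a + 1`:
`N' ∈ p V`, and `N'`, `p` are coprime, so `1 ∈ p V`, contradiction.  So `d z = z`. -/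
def S_LOC : Prop := ∀ (K : Type) [Field K] [NumberField K] (p : ℕ), p.Prime → ∀ v : HeightOneSpectrum (𝓞 K),
  (p : 𝓞 K) ∈ v.asIdeal → ∃ (Ω : Type) (_ : Field Ω) (j : v.adicCompletion K →+* Ω)
    (ι : AlgebraicClosure K →+* Ω) (P : Ideal (OO K)), P.IsMaximal ∧ (p : OO K) ∈ P ∧
    (∀ x : K, ι (algebraMap K (AlgebraicClosure K) x) = j (algebraMap K (v.adicCompletion K) x)) ∧
    ∀ z : AlgebraicClosure K, (∃ w, j w = ι z) → ∀ d : GF K, InDec P d → d z = z

end Pool.Agent.H429.T5
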