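import Pool.Agent.H429.T5.Cur2
import Pool.Agent.H429.T5.Stm2
import Pool.Agent.H429.T3.E2

/-!
# Points over the completions (helper429)
-/

set_option autoImplicit false
set_option linter.all false

namespace Pool.Agent.H429.T5

open NumberField IsDedekindDomain Pool.Agent.W569.FM Pool.Agent.W215.FM Pool.Agent.X290.Reg
open Pool.Agent.H429.T3 WeierstrassCurve WeierstrassCurve.Affine
open scoped Pointwise Classical

section
variable {K : Type} [Field K] [NumberField K] {a b c : 𝓞 K}

/-- a point with coordinates in the image -/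
theorem lift_pt {V : WeierstrassCurve (AlgebraicClosure K)} {Ω : Type} [Field Ω]
    (ι : AlgebraicClosure K →+* Ω) {X Y : Ω} (hXY : (V.map ι).toAffine.Nonsingular X Y)
    (hX : ∃ x, ι x = X) (hY : ∃ y, ι y = Y) :
    ∃ y : V.toAffine.Point, mp V ι y = Point.some X Y hXY := by
  obtain ⟨x, rfl⟩ := hX
  obtain ⟨y, rfl⟩ := hY
  have h0 : V.toAffine.Nonsingular x y :=
    (WeierstrassCurve.Affine.map_nonsingular V.toAffine ι.injective x y).1 hXY
  exact ⟨Point.some x y h0, rfl⟩

theorem mem_of_sq {Ω : Type} [Field Ω] (ι : AlgebraicClosure K →+* Ω) {r : Ω}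
    (h : ∃ x, ι x = r ^ 2) : ∃ x, ι x = r := by
  obtain ⟨x, hx⟩ := h
  obtain ⟨s, hs⟩ := IsAlgClosed.exists_pow_nat_eq (k := AlgebraicClosure K) x (n := 2) (by norm_num)
  have h1 : (ι s) ^ 2 = r ^ 2 := by rw [← map_pow, hs, hx]
  rcases sq_eq_sq_iff_eq_or_eq_neg.1 h1 with h2 | h2
  · exact ⟨s, h2⟩
  · exact ⟨-s, by rw [map_neg, h2, neg_neg]⟩

theorem Rts.down_step (half : S_HALF) {e : Fin 3 → OO K} (h : Rts a b c e) {Ω : Type} [Field Ω]
    (ι : AlgebraicClosure K →+* Ω)
    (R : (((crv a b c).map (algebraMap K (AlgebraicClosure K))).map ι).toAffine.Point)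
    (y : Pts (crv a b c)) (hy : mp _ ι y = R + R) : ∃ y' : Pts (crv a b c), mp _ ι y' = R := by
  have : CharZero Ω := charZero_of_injective_ringHom ι.injective
  match R, hy with
  | 0, _ => exact ⟨0, map_zero _⟩
  | Point.some X Y hxy, hy =>
    by_cases hY : Y = 0
    · subst hY
      refine lift_pt ι hxy ?_ ⟨0, map_zero _⟩
      have h1 := (equation_iff X 0).1 hxy.1
      rw [crv_map] at h1
      simp only [WeierstrassCurve.map, map_zero] at h1
      rw [h.coe1, h.coe2, h.coe3] at h1
      simp only [map_neg, map_add, map_mul] at h1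
      have h2 : (X - ι (e 0)) * (X - ι (e 1)) * (X - ι (e 2)) = 0 := by
        linear_combination -h1
      rcases mul_eq_zero.1 h2 with h3 | h3
      · rcases mul_eq_zero.1 h3 with h3 | h3
        · exact ⟨e 0, (sub_eq_zero.1 h3).symm⟩
        · exact ⟨e 1, (sub_eq_zero.1 h3).symm⟩
      · exact ⟨e 2, (sub_eq_zero.1 h3).symm⟩
    · obtain ⟨X2, Y2, h22, r, hadd, hr, hY2, hXr, hYr⟩ := half Ω
        (((crv a b c).map (algebraMap K (AlgebraicClosure K))).map ι) (fun i => ι (e i))
        X Y hxy (by rw [crv_map]; exact map_zero ι) (by rw [crv_map]; exact map_zero ι)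
        (by rw [crv_map]; show ι _ = _; rw [h.coe1]; simp only [map_neg, map_add])
        (by rw [crv_map]; show ι _ = _; rw [h.coe2]; simp only [map_mul, map_add])
        (by rw [crv_map]; show ι _ = _; rw [h.coe3]; simp only [map_neg, map_mul]) hY
      rw [hadd] at hy
      match y, hy with
      | 0, hy => rw [map_zero] at hy; exact absurd hy.symm (by intro h; cases h)
      | Point.some x2 y2 hxy2, hy =>
        obtain ⟨h', e'⟩ := mp_some _ ι hxy2
        rw [e'] at hy
        injection hy with hx2 hy2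
        have hri : ∀ i, ∃ x, ι x = r i := by
          intro i
          apply mem_of_sq
          refine ⟨x2 - e i, ?_⟩
          rw [hr i, map_sub, hx2]
        choose s hs using hri
        refine lift_pt ι hxy ⟨e 0 + (s 0 + s 1) * (s 0 + s 2), ?_⟩
          ⟨(s 0 + s 1) * (s 0 + s 2) * (s 1 + s 2), ?_⟩
        · rw [hXr, map_add, map_mul, map_add, map_add, hs, hs, hs]
        · rw [hYr, map_mul, map_mul, map_add, map_add, map_add, hs, hs, hs]

theorem Rts.down (half : S_HALF) {e : Fin 3 → OO K} (h : Rts a b c e) {Ω : Type} [Field Ω]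
    (ι : AlgebraicClosure K →+* Ω) (n : ℕ) :
    ∀ (R : (((crv a b c).map (algebraMap K (AlgebraicClosure K))).map ι).toAffine.Point)
    (y : Pts (crv a b c)), mp _ ι y = 2 ^ n • R → ∃ y' : Pts (crv a b c), mp _ ι y' = R := by
  induction n with
  | zero =>
    intro R y hy
    rw [pow_zero, one_smul] at hy
    exact ⟨y, hy⟩
  | succ n ih =>
    intro R y hy
    obtain ⟨y', hy'⟩ := ih (R + R) y (by
      rw [hy, pow_succ, mul_smul, two_smul])
    exact h.down_step half ι R y' hy'

/-- divisibility in one completion -/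
theorem Rts.sat_compl (half : S_HALF) (loc : S_LOC) {e : Fin 3 → OO K} (h : Rts a b c e)
    (hsat : ∀ P : Ideal (OO K), P.IsMaximal → ((2 : ℕ) : OO K) ∈ P → ∀ (n : ℕ)
      (y : Pts (crv a b c)), (∀ d, InDec P d → ga (crv a b c) d y = y) →
      (∀ g, ga (crv a b c) g (2 ^ n • y) = 2 ^ n • y) → ∀ g, ga (crv a b c) g y = y)
    (v : HeightOneSpectrum (𝓞 K)) (hv : ((2 : ℕ) : 𝓞 K) ∈ v.asIdeal) (n : ℕ)
    (P : (crv a b c).toAffine.Point)
    (hP : ∃ R, mp (crv a b c) (algebraMap K (v.adicCompletion K)) P = 2 ^ n • R) :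
    ∃ Q, P = 2 ^ n • Q := by
  obtain ⟨R, hR⟩ := hP
  obtain ⟨Ω, _, j, ι, p, hpm, h2, hc, hfix⟩ := loc K 2 Nat.prime_two v hv
  have hcomp : ι.comp (algebraMap K (AlgebraicClosure K)) =
      j.comp (algebraMap K (v.adicCompletion K)) := RingHom.ext hc
  -- the point over `Ω`
  have hj : mp (crv a b c) (j.comp (algebraMap K (v.adicCompletion K))) P =
      2 ^ n • mp ((crv a b c).map (algebraMap K (v.adicCompletion K))) j R := by
    rw [← mp_mp, hR, map_nsmul]
    rfl
  have key : ∀ (φ : K →+* Ω), φ = j.comp (algebraMap K (v.adicCompletion K)) →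
      ∃ R' : ((crv a b c).map φ).toAffine.Point, mp (crv a b c) φ P = 2 ^ n • R' ∧
        (R' = 0 ∨ ∃ (x y : v.adicCompletion K) (h' : ((crv a b c).map φ).toAffine.Nonsingular
          (j x) (j y)), R' = Point.some (j x) (j y) h') := by
    rintro φ rfl
    refine ⟨mp ((crv a b c).map (algebraMap K (v.adicCompletion K))) j R, hj, ?_⟩
    match R with
    | 0 => exact Or.inl (map_zero _)
    | Point.some x y hxy =>
      obtain ⟨h', e'⟩ := mp_some _ j hxy
      exact Or.inr ⟨x, y, h', e'⟩
  obtain ⟨R', hR', hco⟩ := key _ hcomp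
  rw [← mp_mp] at hR'
  obtain ⟨y, hy⟩ := h.down half ι n R' _ hR'
  have hyn : 2 ^ n • y = mp (crv a b c) (algebraMap K (AlgebraicClosure K)) P := by
    apply mp_injective _ ι
    rw [map_nsmul, hy]
    exact hR'.symm
  have hyfix : ∀ d, InDec p d → ga (crv a b c) d y = y := by
    intro d hd
    match y, hy with
    | 0, _ => exact map_zero _
    | Point.some X Y hXY, hy =>
      obtain ⟨h', e'⟩ := mp_some _ ι hXY
      rw [e'] at hy
      rcases hco with h0 | ⟨x, y, h'', h0⟩
      · rw [h0] at hy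
        cases hy
      · rw [h0] at hy
        injection hy with hx2 hy2
        exact ga_eq _ d hXY (hfix X ⟨x, hx2.symm⟩ d hd) (hfix Y ⟨y, hy2.symm⟩ d hd)
  have hfixP : ∀ g : GF K, ga (crv a b c) g (mp (crv a b c) (algebraMap K (AlgebraicClosure K)) P) =
      mp (crv a b c) (algebraMap K (AlgebraicClosure K)) P := by
    intro g
    match P with
    | 0 => rw [map_zero, map_zero]
    | Point.some x y hxy =>
      obtain ⟨h', e⟩ := mp_some (crv a b c) (algebraMap K (AlgebraicClosure K)) hxy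
      rw [e]
      exact ga_eq _ g h' (g.commutes x) (g.commutes y)
  have hyrat := hsat p hpm h2 n y hyfix (by rw [hyn]; exact hfixP)
  obtain ⟨Q, hQ⟩ := fixed_rat (crv a b c) y hyrat
  refine ⟨Q, mp_injective _ (algebraMap K (AlgebraicClosure K)) ?_⟩
  rw [← hyn, map_nsmul, hQ]

end

end Pool.Agent.H429.T5
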