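import Pool.Agent.H429.T5.Cur3

/-!
# Divisibility and independence in one completion (helper429)
-/

set_option autoImplicit false
set_option linter.all false

namespace Pool.Agent.H429.T5

open NumberField IsDedekindDomain Pool.Agent.W569.FM Pool.Agent.W215.FM Pool.Agent.X290.Reg
open Pool.Agent.H429.T3 WeierstrassCurve WeierstrassCurve.Affine
open scoped Pointwise Classical

variable {K : Type} [Field K] [NumberField K] {a b c : 𝓞 K}

theorem Rts.lg (half : S_HALF) (loc : S_LOC) {e : Fin 3 → OO K} (h : Rts a b c e)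
    (hsat : ∀ P : Ideal (OO K), P.IsMaximal → ((2 : ℕ) : OO K) ∈ P → ∀ (n : ℕ)
      (y : Pts (crv a b c)), (∀ d, InDec P d → ga (crv a b c) d y = y) →
      (∀ g, ga (crv a b c) g (2 ^ n • y) = 2 ^ n • y) → ∀ g, ga (crv a b c) g y = y)
    (v : HeightOneSpectrum (𝓞 K)) (hv : ((2 : ℕ) : 𝓞 K) ∈ v.asIdeal) (n : ℕ)
    (P : (crv a b c).toAffine.Point)
    (hP : ∃ R, mp (crv a b c) (algebraMap K (v.adicCompletion K)) P = (2 ^ n : ℤ) • R) :
    ∃ Q, P = (2 ^ n : ℤ) • Q := by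
  obtain ⟨R, hR⟩ := hP
  obtain ⟨Q, hQ⟩ := h.sat_compl half loc hsat v hv n P ⟨R, by
    rw [hR, ← natCast_zsmul]
    push_cast
    rfl⟩
  refine ⟨Q, ?_⟩
  rw [hQ, ← natCast_zsmul]
  push_cast
  rfl

theorem Rts.ind (half : S_HALF) (loc : S_LOC) {e : Fin 3 → OO K} (h : Rts a b c e)
    (h0 : dsc a b c ≠ 0)
    (hsat : ∀ P : Ideal (OO K), P.IsMaximal → ((2 : ℕ) : OO K) ∈ P → ∀ (n : ℕ)
      (y : Pts (crv a b c)), (∀ d, InDec P d → ga (crv a b c) d y = y) →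
      (∀ g, ga (crv a b c) g (2 ^ n • y) = 2 ^ n • y) → ∀ g, ga (crv a b c) g y = y)
    (v : HeightOneSpectrum (𝓞 K)) (hv : ((2 : ℕ) : 𝓞 K) ∈ v.asIdeal)
    (r : ℕ) (P : Fin r → (crv a b c).toAffine.Point) (hP : LinearIndependent ℤ P) (x : Fin r → ℤ_[2])
    (hx : ∀ n : ℕ, ∃ m : Fin r → ℤ, (∀ i, (2 : ℤ_[2]) ^ n ∣ m i - x i) ∧
      ∃ R, mp (crv a b c) (algebraMap K (v.adicCompletion K)) (∑ i, m i • P i) = (2 ^ n : ℤ) • R) :
    x = 0 := by
  have hΔ : (crv a b c).Δ ≠ 0 := by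
    intro h
    apply h0
    have h1 := crv_disc a b c
    rw [h] at h1
    have h2 : ((dsc a b c : 𝓞 K) : K) = 0 :=
      (mul_eq_zero.1 h1.symm).resolve_left (by norm_num)
    exact RingOfIntegers.ext h2
  have hfg : AddGroup.FG (crv a b c).toAffine.Point :=
    Pool.Agent.Q286.EQ.mordell_weil K (crv a b c) hΔ
  have hfin : Module.Finite ℤ (crv a b c).toAffine.Point :=
    Module.Finite.iff_addGroup_fg.2 hfg
  refine Pool.Agent.X290.Reg.fg_indep P hP x fun n => ?_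
  obtain ⟨m, hm, hR⟩ := hx n
  obtain ⟨Q, hQ⟩ := h.lg half loc hsat v hv n _ hR
  refine ⟨m, fun i => ?_, Q, ?_⟩
  · rw [Ideal.mem_span_singleton]
    exact_mod_cast hm i
  · rw [hQ, ← natCast_zsmul]
    push_cast
    rfl

end Pool.Agent.H429.T5
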