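import Pool.Agent.H429.T5.Stm

/-!
# Project T5, `S_DICH` (helper909 for helper429)
-/

set_option autoImplicit false

namespace Pool.Agent.H429.T5

open NumberField Pool.Agent.W569.FM Pool.Agent.W215.FM Pool.Agent.X290.Reg

namespace DICHN

theorem nf (L : Type) [Field L] [NumberField L] (q : Ideal (𝓞 L)) [q.IsPrime] (z : L) :
    (∃ s t : 𝓞 L, s ∉ q ∧ (s : L) * z = t) ∨
      ∃ s t : 𝓞 L, s ∉ q ∧ t ∈ q ∧ (s : L) = t * z := by
  obtain ⟨a, b, hb, hz⟩ := IsFractionRing.div_surjective (A := 𝓞 L) z
  have hb0 : b ≠ 0 := nonZeroDivisors.ne_zero hb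
  have hb0' : (b : L) ≠ 0 := fun h => hb0 (RingOfIntegers.ext h)
  have hz' : (a : L) / (b : L) = z := hz
  by_cases hq : q = ⊥
  · left
    refine ⟨b, a, ?_, ?_⟩
    · rw [hq, Ideal.mem_bot]
      exact hb0
    · rw [← hz', mul_div_cancel₀ _ hb0']
  · have hdvr : IsDiscreteValuationRing (Localization.AtPrime q) :=
      IsLocalization.AtPrime.isDiscreteValuationRing_of_dedekind_domain (𝓞 L) hq _
    have key : ∀ a b : 𝓞 L, algebraMap (𝓞 L) (Localization.AtPrime q) a ∣
        algebraMap (𝓞 L) (Localization.AtPrime q) b → ∃ s c : 𝓞 L, s ∉ q ∧ s * b = c * a := by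
      rintro a b ⟨x, hx⟩
      obtain ⟨c, s, rfl⟩ := IsLocalization.exists_mk'_eq q.primeCompl x
      refine ⟨s, c, s.2, ?_⟩
      apply IsLocalization.injective (Localization.AtPrime q) q.primeCompl_le_nonZeroDivisors
      have h1 := IsLocalization.mk'_spec (Localization.AtPrime q) c s
      rw [map_mul, map_mul, hx, ← h1]
      ring
    rcases ValuationRing.dvd_total (algebraMap (𝓞 L) (Localization.AtPrime q) b)
      (algebraMap (𝓞 L) (Localization.AtPrime q) a) with h | h
    · obtain ⟨s, c, hs, hsc⟩ := key b a h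
      left
      refine ⟨s, c, hs, ?_⟩
      have h1 : (s : L) * a = c * b := by
        have := congrArg (fun w : 𝓞 L => (w : L)) hsc
        simpa using this
      rw [← hz', mul_div_assoc', h1, mul_div_cancel_right₀ _ hb0']
    · obtain ⟨s, c, hs, hsc⟩ := key a b h
      have h1 : (s : L) * b = c * a := by
        have := congrArg (fun w : 𝓞 L => (w : L)) hsc
        simpa using this
      have h2 : (s : L) = c * z := by
        rw [← hz', mul_div_assoc', ← h1, mul_div_cancel_right₀ _ hb0']
      by_cases hc : c ∈ q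
      · right
        exact ⟨s, c, hs, hc, h2⟩
      · left
        exact ⟨c, s, hc, h2.symm⟩

end DICHN

open DICHN in
theorem dich : S_DICH := by
  intro K _ _ Q hQ z
  have hQp : Q.IsPrime := hQ.isPrime
  have hzi : IsIntegral ℚ z := by
    have h1 : IsIntegral K z := Algebra.IsIntegral.isIntegral z
    have h2 : Algebra.IsIntegral ℚ K := inferInstance
    exact isIntegral_trans z h1
  have hfd : FiniteDimensional ℚ (IntermediateField.adjoin ℚ {z}) :=
    IntermediateField.adjoin.finiteDimensional hzi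
  have hnf : NumberField (IntermediateField.adjoin ℚ {z}) :=
    { to_charZero := inferInstance
      to_finiteDimensional := hfd }
  obtain ⟨z', hz'⟩ : ∃ z' : IntermediateField.adjoin ℚ {z}, (z' : AlgebraicClosure K) = z :=
    ⟨⟨z, IntermediateField.mem_adjoin_simple_self ℚ z⟩, rfl⟩
  obtain ⟨φ, hφ⟩ : ∃ φ : 𝓞 (IntermediateField.adjoin ℚ {z}) →+* OO K,
      ∀ x, ((φ x : OO K) : AlgebraicClosure K) =
        ((x : IntermediateField.adjoin ℚ {z}) : AlgebraicClosure K) :=
    ⟨RingOfIntegers.mapRingHom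
      (algebraMap (IntermediateField.adjoin ℚ {z}) (AlgebraicClosure K)), fun x => rfl⟩
  have hq : (Q.comap φ).IsPrime := Ideal.comap_isPrime φ Q
  rcases nf (IntermediateField.adjoin ℚ {z}) (Q.comap φ) z' with ⟨s, t, hs, h⟩ | ⟨s, t, hs, ht, h⟩
  · left
    refine ⟨φ s, φ t, hs, ?_⟩
    rw [hφ, hφ]
    have h1 := congrArg (fun w : IntermediateField.adjoin ℚ {z} => (w : AlgebraicClosure K)) h
    simp only [IntermediateField.coe_mul] at h1
    rw [hz'] at h1
    exact h1
  · right
    refine ⟨φ s, φ t, hs, ht, ?_⟩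
    rw [hφ, hφ]
    have h1 := congrArg (fun w : IntermediateField.adjoin ℚ {z} => (w : AlgebraicClosure K)) h
    simp only [IntermediateField.coe_mul] at h1
    rw [hz'] at h1
    exact h1

end Pool.Agent.H429.T5
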