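import Pool.Agent.H429.T5.Stm

/-!
Halving a point of `y ^ 2 = (x - e 0) (x - e 1) (x - e 2)` (project T5 of helper429; helper42).
-/

set_option autoImplicit false

namespace Pool.Agent.H429.T5

open WeierstrassCurve WeierstrassCurve.Affine

namespace HALFN

variable {Ω : Type} [Field Ω]

theorem sq_r {X Y ℓ r u v w N F c : Ω} (h2 : (2 : Ω) * Y ≠ 0) (hN : N = u * v + u * w - v * w)
    (hF : F = u * v + u * w + v * w) (hr : r * (2 * Y) = N) (hl : ℓ * (2 * Y) = F)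
    (hY : u * v * w = Y ^ 2) (hc : c = ℓ ^ 2 - v - w) : r ^ 2 = c := by
  have h4 : ((2 : Ω) * Y) ^ 2 ≠ 0 := pow_ne_zero 2 h2
  refine mul_right_cancel₀ h4 ?_
  subst hN hF hc
  linear_combination (r * (2 * Y) + (u * v + u * w - v * w)) * hr -
    (ℓ * (2 * Y) + (u * v + u * w + v * w)) * hl - 4 * (v + w) * hY

end HALFN

theorem half : S_HALF := by
  intro Ω _ _ _ V e X Y h a1 a3 a2 a4 a6 hY
  have h2 : (2 : Ω) ≠ 0 := two_ne_zero
  have h2Y : (2 : Ω) * Y ≠ 0 := mul_ne_zero h2 hY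
  have heq : Y ^ 2 + V.a₁ * X * Y + V.a₃ * Y = X ^ 3 + V.a₂ * X ^ 2 + V.a₄ * X + V.a₆ :=
    (equation_iff X Y).1 h.1
  rw [a1, a3, a2, a4, a6] at heq
  have hY2 : (X - e 0) * (X - e 1) * (X - e 2) = Y ^ 2 := by linear_combination -heq
  have hne : Y ≠ V.toAffine.negY X Y := by
    intro h0
    unfold negY at h0
    rw [a1, a3] at h0
    exact h2Y (by linear_combination h0)
  have hadd := Point.add_self_of_Y_ne (h₁ := h) hne
  set ℓ : Ω := V.toAffine.slope X X Y Y with hℓd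
  have hℓ : ℓ * (2 * Y) = (X - e 0) * (X - e 1) + (X - e 0) * (X - e 2) +
      (X - e 1) * (X - e 2) := by
    rw [hℓd, slope_of_Y_ne rfl hne]
    have h3 : Y - V.toAffine.negY X Y = 2 * Y := by
      unfold negY
      rw [a1, a3]
      ring
    rw [h3, div_mul_cancel₀ _ h2Y, a1, a2, a4]
    ring
  have hX2 : V.toAffine.addX X X ℓ = ℓ ^ 2 + (e 0 + e 1 + e 2) - 2 * X := by
    unfold addX
    rw [a1, a2]
    ring
  have hns := nonsingular_add h h (fun hxy => hne hxy.right)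
  -- the three square roots
  obtain ⟨r0, hr0⟩ : ∃ r0 : Ω, r0 * (2 * Y) =
      (X - e 0) * (X - e 1) + (X - e 0) * (X - e 2) - (X - e 1) * (X - e 2) :=
    ⟨_, div_mul_cancel₀ _ h2Y⟩
  obtain ⟨r1, hr1⟩ : ∃ r1 : Ω, r1 * (2 * Y) =
      (X - e 1) * (X - e 0) + (X - e 1) * (X - e 2) - (X - e 0) * (X - e 2) :=
    ⟨_, div_mul_cancel₀ _ h2Y⟩
  obtain ⟨r2, hr2⟩ : ∃ r2 : Ω, r2 * (2 * Y) =
      (X - e 2) * (X - e 0) + (X - e 2) * (X - e 1) - (X - e 0) * (X - e 1) :=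
    ⟨_, div_mul_cancel₀ _ h2Y⟩
  have s0 : r0 ^ 2 = V.toAffine.addX X X ℓ - e 0 :=
    HALFN.sq_r (X := X) (Y := Y) (ℓ := ℓ) (u := X - e 0) (v := X - e 1) (w := X - e 2) h2Y rfl rfl
      hr0 hℓ hY2 (by rw [hX2]; ring)
  have s1 : r1 ^ 2 = V.toAffine.addX X X ℓ - e 1 :=
    HALFN.sq_r (X := X) (Y := Y) (ℓ := ℓ) (u := X - e 1) (v := X - e 0) (w := X - e 2) h2Y rfl rfl
      hr1 (by rw [hℓ]; ring) (by rw [← hY2]; ring) (by rw [hX2]; ring)
  have s2 : r2 ^ 2 = V.toAffine.addX X X ℓ - e 2 :=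
    HALFN.sq_r (X := X) (Y := Y) (ℓ := ℓ) (u := X - e 2) (v := X - e 0) (w := X - e 1) h2Y rfl rfl
      hr2 (by rw [hℓ]; ring) (by rw [← hY2]; ring) (by rw [hX2]; ring)
  have s01 : (r0 + r1) * (2 * Y) = 2 * ((X - e 0) * (X - e 1)) := by
    linear_combination hr0 + hr1
  have s02 : (r0 + r2) * (2 * Y) = 2 * ((X - e 0) * (X - e 2)) := by
    linear_combination hr0 + hr2
  have s12 : (r1 + r2) * (2 * Y) = 2 * ((X - e 1) * (X - e 2)) := by
    linear_combination hr1 + hr2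
  have g3 : X = e 0 + (r0 + r1) * (r0 + r2) := by
    refine mul_right_cancel₀ (pow_ne_zero 2 h2Y) ?_
    linear_combination -((r0 + r2) * (2 * Y)) * s01 - 2 * ((X - e 0) * (X - e 1)) * s02 -
      4 * (X - e 0) * hY2
  refine ⟨V.toAffine.addX X X ℓ, V.toAffine.addY X X Y ℓ, hns, ![r0, r1, r2], hadd, ?_, ?_, g3, ?_⟩
  · intro i
    fin_cases i
    · exact s0
    · exact s1
    · exact s2
  · have heq2 : V.toAffine.addY X X Y ℓ ^ 2 +
        V.a₁ * V.toAffine.addX X X ℓ * V.toAffine.addY X X Y ℓ + V.a₃ * V.toAffine.addY X X Y ℓ =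
        V.toAffine.addX X X ℓ ^ 3 + V.a₂ * V.toAffine.addX X X ℓ ^ 2 +
          V.a₄ * V.toAffine.addX X X ℓ + V.a₆ :=
      (equation_iff _ _).1 hns.1
    rw [a1, a3, a2, a4, a6] at heq2
    show V.toAffine.addY X X Y ℓ ^ 2 = (r0 * r1 * r2) ^ 2
    have e3 : (r0 * r1 * r2) ^ 2 = r0 ^ 2 * r1 ^ 2 * r2 ^ 2 := by ring
    rw [e3, s0, s1, s2]
    linear_combination heq2
  · show Y = (r0 + r1) * (r0 + r2) * (r1 + r2)
    refine mul_right_cancel₀ h2Y ?_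
    have g4 : (r0 + r1) * (r0 + r2) = X - e 0 := by linear_combination -g3
    rw [g4]
    linear_combination -(X - e 0) * s12 - 2 * hY2

end Pool.Agent.H429.T5
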