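import Pool.Agent.H429.T5.Stm2

/-!
# Project T5, `S_LOC` (helper137 for helper429)
-/

set_option autoImplicit false

namespace Pool.Agent.H429.T5

open NumberField IsDedekindDomain Pool.Agent.W569.FM Pool.Agent.W215.FM Pool.Agent.X290.Reg
open scoped Pointwise

namespace LOCN

/-- the core of the argument, for a valuation subring `V` of `Ω` -/
theorem core (K : Type) [Field K] [NumberField K] (p : ℕ) (hp : p.Prime) {Ω Kv : Type} [Field Ω] [Field Kv]
    (i : K →+* Kv) (j : Kv →+* Ω) (O : Subring Kv) (ι : AlgebraicClosure K →+* Ω)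
    (hι : ∀ x : K, ι (algebraMap K (AlgebraicClosure K) x) = j (i x))
    (V : ValuationSubring Ω) (hV : ∀ w ∈ O, j w ∈ V) (hpV : (p : Ω) ∈ V.nonunits)
    (dens : ∀ (w : Kv) (m : ℕ), ∃ k : K, ∃ o ∈ O, w - i k = (p : Kv) ^ m * o) :
    ∃ P : Ideal (OO K), P.IsMaximal ∧ (p : OO K) ∈ P ∧
      ∀ z : AlgebraicClosure K, (∃ w, j w = ι z) → ∀ d : GF K, InDec P d → d z = z := by
  have hint : ∀ x : OO K, ι x ∈ V := by
    intro x
    have h1 : IsIntegral ℤ (x : AlgebraicClosure K) := x.2
    have h2 : IsIntegral ℤ (ι x) := h1.map (ι.toIntAlgHom)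
    have h3 : IsIntegral V (ι x) := h2.tower_top
    obtain ⟨y, hy⟩ := IsIntegrallyClosed.isIntegral_iff.1 h3
    rw [← hy]
    exact y.2
  let φ : OO K →+* V := (ι.comp (algebraMap (OO K) (AlgebraicClosure K))).codRestrict V.toSubring hint
  have hφ : ∀ x : OO K, ((φ x : V) : Ω) = ι x := fun x => rfl
  let P : Ideal (OO K) := (IsLocalRing.maximalIdeal V).comap φ
  have hPp : P.IsPrime := Ideal.comap_isPrime φ _
  have hpP : (p : OO K) ∈ P := by
    change φ p ∈ IsLocalRing.maximalIdeal V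
    rw [map_natCast]
    have h1 := (ValuationSubring.mem_nonunits_iff_exists_mem_maximalIdeal (A := V)).1 hpV
    obtain ⟨ha, h2⟩ := h1
    have h3 : ((p : V) : V) = ⟨(p : Ω), ha⟩ := by
      apply Subtype.ext
      simp
    rw [h3]
    exact h2
  have hPm : P.IsMaximal := by
    apply Ideal.isMaximal_of_isIntegral_of_isMaximal_comap (R := ℤ) P
    have h1 : (P.comap (algebraMap ℤ (OO K))).IsPrime := Ideal.comap_isPrime _ _
    apply h1.isMaximal
    intro h2
    have h3 : (p : ℤ) ∈ P.comap (algebraMap ℤ (OO K)) := by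
      rw [Ideal.mem_comap]
      simpa using hpP
    rw [h2, Ideal.mem_bot] at h3
    exact hp.ne_zero (by exact_mod_cast h3)
  refine ⟨P, hPm, hpP, ?_⟩
  rintro z ⟨w, hw⟩ d hd
  have hp0 : (p : AlgebraicClosure K) ≠ 0 := by exact_mod_cast hp.ne_zero
  -- units of `V`
  have hunit : ∀ s : OO K, s ∉ P → (ι s)⁻¹ ∈ V := by
    intro s hs
    have h1 : IsUnit (φ s) := by
      by_contra h
      exact hs ((IsLocalRing.mem_maximalIdeal _).2 h)
    obtain ⟨u, hu⟩ := h1
    have h2 : ((φ s : V) : Ω) * ((u⁻¹ : Vˣ) : V) = 1 := by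
      rw [← hu, ← MulMemClass.coe_mul, Units.mul_inv]
      rfl
    rw [hφ] at h2
    have h3 : (ι s)⁻¹ = ((u⁻¹ : Vˣ) : V) := inv_eq_of_mul_eq_one_right h2
    rw [h3]
    exact (((u⁻¹ : Vˣ) : V)).2
  have hdP : ∀ s : OO K, s ∉ P → d • s ∉ P := fun s hs h => hs ((hd s).1 h)
  have hdc : ∀ s : OO K, ((d • s : OO K) : AlgebraicClosure K) = d (s : AlgebraicClosure K) := fun s => rfl
  -- `x` in `V` implies `d x` in `V`
  have hkey : ∀ x : AlgebraicClosure K, ι x ∈ V → ι (d x) ∈ V := by
    intro x hx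
    rcases dich K P hPm x with ⟨s, t, hs, h⟩ | ⟨s, t, hs, ht, h⟩
    · have h1 : d (s : AlgebraicClosure K) * d x = d (t : AlgebraicClosure K) := by
        rw [← map_mul, h]
      rw [← hdc, ← hdc] at h1
      have h2 : ι ((d • s : OO K) : AlgebraicClosure K) * ι (d x) = ι ((d • t : OO K) : AlgebraicClosure K) := by
        rw [← map_mul, h1]
      have h3 : ι ((d • s : OO K) : AlgebraicClosure K) ≠ 0 := by
        intro h0
        apply hdP s hs
        change φ (d • s) ∈ IsLocalRing.maximalIdeal V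
        have : φ (d • s) = 0 := Subtype.ext h0
        rw [this]
        exact zero_mem _
      have h4 : ι (d x) = (ι ((d • s : OO K) : AlgebraicClosure K))⁻¹ * ι ((d • t : OO K) : AlgebraicClosure K) := by
        rw [← h2]
        field_simp
      rw [h4]
      exact V.mul_mem _ _ (hunit _ (hdP s hs)) (hint _)
    · exfalso
      apply hs
      change φ s ∈ IsLocalRing.maximalIdeal V
      have h1 : φ s = φ t * ⟨ι x, hx⟩ := by
        apply Subtype.ext
        change ι s = ι t * ι x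
        rw [h, map_mul]
      rw [h1]
      exact Ideal.mul_mem_right _ _ ht
  have hD : ∀ m : ℕ, ∃ o ∈ V, ι (d z - z) = (p : Ω) ^ m * o := by
    intro m
    obtain ⟨k, o, ho, hk⟩ := dens w m
    have hx : ι ((z - algebraMap K _ k) / (p : AlgebraicClosure K) ^ m) = j o := by
      rw [map_div₀, map_sub, ← hw, hι, ← map_sub, hk, map_mul, map_pow, map_pow, map_natCast, map_natCast]
      have hp0' : (p : Ω) ≠ 0 := by
        have := (map_ne_zero ι).2 hp0
        rwa [map_natCast] at this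
      field_simp
    have hx' : ι ((z - algebraMap K _ k) / (p : AlgebraicClosure K) ^ m) ∈ V := by
      rw [hx]
      exact hV o ho
    refine ⟨ι (d ((z - algebraMap K _ k) / (p : AlgebraicClosure K) ^ m)) -
      ι ((z - algebraMap K _ k) / (p : AlgebraicClosure K) ^ m), V.sub_mem (hkey _ hx') hx', ?_⟩
    rw [← map_sub, ← map_natCast ι, ← map_pow, ← map_mul]
    congr 1
    rw [map_div₀, map_sub, map_pow, map_natCast, AlgEquiv.commutes]
    field_simp
    ring
  by_contra hne
  have hD0 : d z - z ≠ 0 := sub_ne_zero.2 hne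
  have halg : IsAlgebraic ℤ ((d z - z)⁻¹) := by
    have h1 : IsAlgebraic K ((d z - z)⁻¹) := Algebra.IsAlgebraic.isAlgebraic _
    have h2 : Algebra.IsAlgebraic ℚ K := inferInstance
    have h3 : IsAlgebraic ℚ ((d z - z)⁻¹) := h1.restrictScalars ℚ
    exact (IsFractionRing.isAlgebraic_iff ℤ ℚ (AlgebraicClosure K)).2 h3
  obtain ⟨y, hy0, hy⟩ := halg.exists_integral_multiple
  obtain ⟨u, hu⟩ : ∃ u : OO K, (u : AlgebraicClosure K) = y • (d z - z)⁻¹ := ⟨⟨_, hy⟩, rfl⟩
  have huD : ι u * ι (d z - z) = (y : Ω) := by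
    rw [← map_mul, hu, zsmul_eq_mul, inv_mul_cancel_right₀ hD0, map_intCast]
  have hfin : FiniteMultiplicity (p : ℤ) y := Int.finiteMultiplicity_iff.2 ⟨by simpa using hp.ne_one, hy0⟩
  obtain ⟨y', hy1, hy2⟩ := hfin.exists_eq_pow_mul_and_not_dvd
  obtain ⟨o, ho, hDo⟩ := hD (multiplicity (p : ℤ) y + 1)
  have hpΩ : (p : Ω) ≠ 0 := by
    have := (map_ne_zero ι).2 hp0
    rwa [map_natCast] at this
  have h5 : (y' : Ω) = p * (ι u * o) := by
    have h6 : (p : Ω) ^ (multiplicity (p : ℤ) y) * (y' : Ω) =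
        (p : Ω) ^ (multiplicity (p : ℤ) y) * (p * (ι u * o)) := by
      have h7 : ((y : ℤ) : Ω) = (p : Ω) ^ (multiplicity (p : ℤ) y) * (y' : Ω) := by
        conv_lhs => rw [hy1]
        push_cast
        rfl
      rw [← h7, ← huD, hDo]
      ring
    exact mul_left_cancel₀ (pow_ne_zero _ hpΩ) h6
  have hcop : IsCoprime (p : ℤ) y' := by
    rw [Prime.coprime_iff_not_dvd (Nat.prime_iff_prime_int.1 hp)]
    exact hy2
  obtain ⟨a, b, hab⟩ := hcop
  have h8 : (p : Ω) * (a + b * (ι u * o)) = 1 := by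
    have h9 : ((a * p + b * y' : ℤ) : Ω) = 1 := by
      rw [hab, Int.cast_one]
    push_cast at h9
    rw [h5] at h9
    rw [← h9]
    ring
  have h10 : (p : Ω)⁻¹ ∈ V := by
    rw [inv_eq_of_mul_eq_one_right h8]
    refine V.add_mem _ _ (intCast_mem V a) (V.mul_mem _ _ (intCast_mem V b) (V.mul_mem _ _ (hint u) ho))
  have h11 := (ValuationSubring.mem_nonunits_iff (A := V)).1 hpV
  have h12 : V.valuation (p : Ω)⁻¹ ≤ 1 := (V.valuation_le_one_iff _).2 h10
  have h13 : V.valuation (p : Ω) * V.valuation (p : Ω)⁻¹ = 1 := by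
    rw [← map_mul, mul_inv_cancel₀ hpΩ, map_one]
  have h14 : V.valuation (p : Ω) * V.valuation (p : Ω)⁻¹ < 1 := mul_lt_one_of_lt_of_le h11 h12
  exact absurd h13 h14.ne

theorem exlift (K Ω : Type) [Field K] [Field Ω] [IsAlgClosed Ω] (f : K →+* Ω) :
    ∃ ι : AlgebraicClosure K →+* Ω, ∀ x, ι (algebraMap K (AlgebraicClosure K) x) = f x := by
  let _ : Algebra K Ω := f.toAlgebra
  exact ⟨((IsAlgClosed.lift : AlgebraicClosure K →ₐ[K] Ω) : AlgebraicClosure K →+* Ω),
    fun x => AlgHom.commutes (IsAlgClosed.lift : AlgebraicClosure K →ₐ[K] Ω) x⟩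

/-- a valuation subring which dominates `j O` (at `p`) -/
theorem exV {Kv Ω : Type} [Field Kv] [Field Ω] (j : Kv →+* Ω) (O : Subring Kv) (p : ℕ)
    (hp : ∀ o ∈ O, (p : Kv) * o ≠ 1) :
    ∃ V : ValuationSubring Ω, (∀ w ∈ O, j w ∈ V) ∧ (p : Ω) ∈ V.nonunits := by
  let A : Subring Ω := O.map j
  have hI : Ideal.span {(p : A)} ≠ ⊤ := by
    intro h
    rw [Ideal.eq_top_iff_one, Ideal.mem_span_singleton] at h
    obtain ⟨a, ha⟩ := h
    obtain ⟨o, ho, hoa⟩ := a.2
    apply hp o ho
    apply j.injective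
    rw [map_mul, map_natCast, map_one, hoa]
    have := congrArg (fun w : A => (w : Ω)) ha
    simpa using this.symm
  obtain ⟨V, hV1, hV2⟩ := Ideal.image_subset_nonunits_valuationSubring _ hI
  refine ⟨V, fun w hw => hV1 ⟨w, hw, rfl⟩, ?_⟩
  apply hV2
  exact ⟨(p : A), Ideal.subset_span rfl, by simp⟩

theorem dens (K : Type) [Field K] [NumberField K] (v : HeightOneSpectrum (𝓞 K)) (p : ℕ) (hp : p.Prime)
    (w : v.adicCompletion K) (m : ℕ) : ∃ k : K, ∃ o ∈ (v.adicCompletionIntegers K).toSubring,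
      w - algebraMap K (v.adicCompletion K) k = (p : v.adicCompletion K) ^ m * o := by
  have hp0 : (p : v.adicCompletion K) ≠ 0 := by
    have h1 : (p : K) ≠ 0 := by exact_mod_cast hp.ne_zero
    have h2 := (map_ne_zero (algebraMap K (v.adicCompletion K))).2 h1
    rwa [map_natCast] at h2
  let f : v.adicCompletion K → v.adicCompletion K := fun x => (w - x) * ((p : v.adicCompletion K) ^ m)⁻¹
  have hf : Continuous f := by
    apply Continuous.mul _ continuous_const
    exact continuous_const.sub continuous_id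
  have hO : IsOpen ((Valued.v (R := v.adicCompletion K)).integer : Set (v.adicCompletion K)) :=
    Valued.isOpen_integer _
  have hU := hO.preimage hf
  have hne : (f ⁻¹' ((Valued.v (R := v.adicCompletion K)).integer : Set (v.adicCompletion K))).Nonempty := by
    refine ⟨w, ?_⟩
    change f w ∈ (Valued.v (R := v.adicCompletion K)).integer
    have : f w = 0 := by simp [f]
    rw [this]
    exact zero_mem _
  obtain ⟨k, hk⟩ := (HeightOneSpectrum.denseRange_algebraMap K v).exists_mem_open hU hne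
  refine ⟨k, f (algebraMap K (v.adicCompletion K) k), hk, ?_⟩
  simp only [f]
  field_simp

theorem punit (K : Type) [Field K] [NumberField K] (v : HeightOneSpectrum (𝓞 K)) (p : ℕ)
    (hpv : (p : 𝓞 K) ∈ v.asIdeal) :
    ∀ o ∈ (v.adicCompletionIntegers K).toSubring, (p : v.adicCompletion K) * o ≠ 1 := by
  intro o ho h
  have h1 : Valued.v (p : v.adicCompletion K) < 1 := by
    have h2 := HeightOneSpectrum.valuedAdicCompletion_eq_valuation' v (algebraMap (𝓞 K) K (p : 𝓞 K))
    have h3 : ((algebraMap (𝓞 K) K (p : 𝓞 K) : K) : v.adicCompletion K) = (p : v.adicCompletion K) := by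
      have h4 := congrFun (HeightOneSpectrum.algebraMap_adicCompletion (S := 𝓞 K) (𝓞 K) K v) (p : 𝓞 K)
      rw [map_natCast] at h4
      exact h4.symm
    rw [h3] at h2
    rw [h2]
    exact (HeightOneSpectrum.valuation_lt_one_iff_mem v _).2 hpv
  have h2 : Valued.v o ≤ 1 := ho
  have h3 := congrArg (Valued.v (R := v.adicCompletion K)) h
  rw [map_mul, map_one] at h3
  have h4 := mul_lt_one_of_lt_of_le h1 h2
  exact absurd h3 h4.ne

end LOCN

open LOCN in
theorem loc : S_LOC := by
  intro K _ _ p hp v hpv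
  obtain ⟨V, hV, hpV⟩ := exV (algebraMap (v.adicCompletion K) (AlgebraicClosure (v.adicCompletion K)))
    (v.adicCompletionIntegers K).toSubring p (punit K v p hpv)
  obtain ⟨ι, hι⟩ := exlift K (AlgebraicClosure (v.adicCompletion K))
    ((algebraMap (v.adicCompletion K) (AlgebraicClosure (v.adicCompletion K))).comp
      (algebraMap K (v.adicCompletion K)))
  obtain ⟨P, hP, hpP, h⟩ := core K p hp (algebraMap K (v.adicCompletion K))
    (algebraMap (v.adicCompletion K) (AlgebraicClosure (v.adicCompletion K)))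
    (v.adicCompletionIntegers K).toSubring ι hι V hV hpV (dens K v p hp)
  exact ⟨_, _, _, ι, P, hP, hpP, hι, h⟩

end Pool.Agent.H429.T5
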