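import Pool.Agent.H429.T5.Stm

/-!
# Project T5, job SIGN: inertia fixes the square roots
-/

set_option autoImplicit false

namespace Pool.Agent.H429.T5

open NumberField Pool.Agent.W569.FM Pool.Agent.W215.FM Pool.Agent.X290.Reg
open scoped Pointwise

namespace SIGNN

variable {Ω O : Type} [Field Ω] [CommRing O]

/-- `z` is integral at `Q` -/
def In (c : O →+* Ω) (Q : Ideal O) (z : Ω) : Prop := ∃ s t : O, s ∉ Q ∧ c s * z = c t

/-- `z` is in the maximal ideal at `Q` -/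
def Sm (c : O →+* Ω) (Q : Ideal O) (z : Ω) : Prop := ∃ s t : O, s ∉ Q ∧ t ∈ Q ∧ c s * z = c t

variable {c : O →+* Ω} {Q : Ideal O}

theorem not_mem_mul (hQ : Q.IsPrime) {a b : O} (ha : a ∉ Q) (hb : b ∉ Q) : a * b ∉ Q := fun h =>
  (hQ.mem_or_mem h).elim ha hb

theorem In.mul (hQ : Q.IsPrime) {x y : Ω} (hx : In c Q x) (hy : In c Q y) : In c Q (x * y) := by
  obtain ⟨s, t, hs, h⟩ := hx
  obtain ⟨s', t', hs', h'⟩ := hy
  refine ⟨s * s', t * t', not_mem_mul hQ hs hs', ?_⟩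
  rw [map_mul, map_mul, ← h, ← h']
  ring

theorem In.add (hQ : Q.IsPrime) {x y : Ω} (hx : In c Q x) (hy : In c Q y) : In c Q (x + y) := by
  obtain ⟨s, t, hs, h⟩ := hx
  obtain ⟨s', t', hs', h'⟩ := hy
  refine ⟨s * s', t * s' + s * t', not_mem_mul hQ hs hs', ?_⟩
  rw [map_mul, map_add, map_mul, map_mul, ← h, ← h']
  ring

theorem Sm.mul (hQ : Q.IsPrime) {x y : Ω} (hx : Sm c Q x) (hy : In c Q y) : Sm c Q (x * y) := by
  obtain ⟨s, t, hs, ht, h⟩ := hx
  obtain ⟨s', t', hs', h'⟩ := hy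
  refine ⟨s * s', t * t', not_mem_mul hQ hs hs', Q.mul_mem_right _ ht, ?_⟩
  rw [map_mul, map_mul, ← h, ← h']
  ring

theorem Sm.add (hQ : Q.IsPrime) {x y : Ω} (hx : Sm c Q x) (hy : Sm c Q y) : Sm c Q (x + y) := by
  obtain ⟨s, t, hs, ht, h⟩ := hx
  obtain ⟨s', t', hs', ht', h'⟩ := hy
  refine ⟨s * s', t * s' + s * t', not_mem_mul hQ hs hs',
    Q.add_mem (Q.mul_mem_right _ ht) (Q.mul_mem_left _ ht'), ?_⟩
  rw [map_mul, map_add, map_mul, map_mul, ← h, ← h']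
  ring

theorem Sm.neg {x : Ω} (hx : Sm c Q x) : Sm c Q (-x) := by
  obtain ⟨s, t, hs, ht, h⟩ := hx
  refine ⟨s, -t, hs, Q.neg_mem ht, ?_⟩
  rw [map_neg, ← h]
  ring

theorem Sm.sub (hQ : Q.IsPrime) {x y : Ω} (hx : Sm c Q x) (hy : Sm c Q y) : Sm c Q (x - y) := by
  rw [sub_eq_add_neg]
  exact hx.add hQ hy.neg

theorem Sm.to_in {x : Ω} (hx : Sm c Q x) : In c Q x := by
  obtain ⟨s, t, hs, ht, h⟩ := hx
  exact ⟨s, t, hs, h⟩

theorem in_c (hQ : Q.IsPrime) (y : O) : In c Q (c y) :=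
  ⟨1, y, fun h => hQ.ne_top ((Ideal.eq_top_iff_one Q).2 h), by rw [map_one, one_mul]⟩

theorem sm_c (hQ : Q.IsPrime) (hc : Function.Injective c) {y : O} (h : Sm c Q (c y)) : y ∈ Q := by
  obtain ⟨s, t, hs, ht, h⟩ := h
  rw [← map_mul] at h
  have h1 := hc h
  rw [← h1] at ht
  exact (hQ.mem_or_mem ht).resolve_left hs

/-- step (B) -/
theorem in_of_sq (hQ : Q.IsPrime) (hint : ∀ x : Ω, (∃ y : O, x ^ 2 = c y) → ∃ z : O, x = c z) {z : Ω}
    (h : In c Q (z ^ 2)) : In c Q z := by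
  obtain ⟨s, t, hs, h⟩ := h
  obtain ⟨u, hu⟩ := hint (c s * z) ⟨s * t, by rw [map_mul, ← h]; ring⟩
  exact ⟨s, u, hs, hu⟩

/-- step (A) -/
theorem sm_of_neg (hQ : Q.IsPrime) (hc : Function.Injective c) (h2 : (2 : O) ∉ Q) (τ : Ω →+* Ω)
    (τO : O → O) (hτ : ∀ x, c (τO x) = τ (c x)) (hin : ∀ x, τO x - x ∈ Q) {z : Ω} (h : In c Q z)
    (hz : τ z = -z) : Sm c Q z := by
  obtain ⟨s, t, hs, h⟩ := h
  refine ⟨s, t, hs, ?_, h⟩
  have h3 : s * τO t + τO s * t = 0 := by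
    apply hc
    rw [map_add, map_mul, map_mul, map_zero, hτ, hτ, ← h, map_mul, hz]
    ring
  have h4 : 2 * (s * t) = -(s * (τO t - t) + (τO s - s) * t) := by
    linear_combination h3
  have h5 : 2 * (s * t) ∈ Q := by
    rw [h4]
    exact Q.neg_mem (Q.add_mem (Q.mul_mem_left _ (hin t)) (Q.mul_mem_right _ (hin s)))
  exact (hQ.mem_or_mem ((hQ.mem_or_mem h5).resolve_left h2)).resolve_left hs

section main

variable (hQ : Q.IsPrime) (hc : Function.Injective c) (h2 : (2 : O) ∉ Q)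
    (hint : ∀ x : Ω, (∃ y : O, x ^ 2 = c y) → ∃ z : O, x = c z)
    (hdich : ∀ z : Ω, (∃ s t : O, s ∉ Q ∧ c s * z = c t) ∨
      ∃ s t : O, s ∉ Q ∧ t ∈ Q ∧ c s = c t * z)
    (τ : Ω →+* Ω) (τO : O → O) (hτ : ∀ x, c (τO x) = τ (c x)) (hin : ∀ x, τO x - x ∈ Q)

include hQ hc h2 hint hτ hin

/-- the case of a zero root -/
theorem zero_case {a b : Ω} {d : O} (hd : d ∉ Q) (hab : a ^ 2 - b ^ 2 = c d) (hb : b = 0)
    (ha : τ a = -a) : False := by
  have h3 : a ^ 2 = c d := by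
    rw [← hab, hb]
    ring
  have h4 : In c Q a := in_of_sq hQ hint (by rw [h3]; exact in_c hQ d)
  have h5 := sm_of_neg hQ hc h2 τ τO hτ hin h4 ha
  have h6 : Sm c Q (a ^ 2) := by
    rw [sq]
    exact h5.mul hQ h4
  rw [h3] at h6
  exact hd (sm_c hQ hc h6)

include hdich

/-- the main case: `a`, `b` are moved, `k` is not -/
theorem main_case {a b k : Ω} {d d' : O} (hd : d ∉ Q) (hab : a ^ 2 - b ^ 2 = c d)
    (hak : a ^ 2 - k ^ 2 = c d') (hk0 : k ≠ 0) (ha : τ a = -a) (hb : τ b = -b) (hk : τ k = k) :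
    False := by
  by_cases hI : In c Q a
  · have h3 : In c Q b := by
      apply in_of_sq hQ hint
      have h4 : b ^ 2 = a * a + c (-d) := by
        rw [map_neg, ← hab]
        ring
      rw [h4]
      exact (hI.mul hQ hI).add hQ (in_c hQ _)
    have h5 := sm_of_neg hQ hc h2 τ τO hτ hin hI ha
    have h6 := sm_of_neg hQ hc h2 τ τO hτ hin h3 hb
    have h7 : Sm c Q (c d) := by
      rw [← hab, sq, sq]
      exact (h5.mul hQ hI).sub hQ (h6.mul hQ h3)
    exact hd (sm_c hQ hc h7)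
  · have hIk : ¬ In c Q k := by
      intro h3
      apply hI
      apply in_of_sq hQ hint
      have h4 : a ^ 2 = k * k + c d' := by
        rw [← hak]
        ring
      rw [h4]
      exact (h3.mul hQ h3).add hQ (in_c hQ _)
    obtain ⟨s, t, hs, ht, hst⟩ := (hdich k).resolve_left hIk
    have h3 : Sm c Q k⁻¹ := by
      refine ⟨s, t, hs, ht, ?_⟩
      rw [hst, mul_assoc, mul_inv_cancel₀ hk0, mul_one]
    have h4 : Sm c Q (k⁻¹ * k⁻¹ * c d') := (h3.mul hQ h3.to_in).mul hQ (in_c hQ _)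
    have h5 : (a * k⁻¹) ^ 2 = c 1 + k⁻¹ * k⁻¹ * c d' := by
      rw [map_one, ← hak]
      field_simp
      ring
    have h6 : In c Q (a * k⁻¹) := by
      apply in_of_sq hQ hint
      rw [h5]
      exact (in_c hQ 1).add hQ h4.to_in
    have h7 : τ (a * k⁻¹) = -(a * k⁻¹) := by
      rw [map_mul, map_inv₀, ha, hk]
      ring
    have h8 := sm_of_neg hQ hc h2 τ τO hτ hin h6 h7
    have h9 : Sm c Q (c 1) := by
      have h10 : c 1 = a * k⁻¹ * (a * k⁻¹) - k⁻¹ * k⁻¹ * c d' := by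
        rw [← sq, h5]
        ring
      rw [h10]
      exact (h8.mul hQ h6).sub hQ h4
    exact hQ.ne_top ((Ideal.eq_top_iff_one Q).2 (sm_c hQ hc h9))

/-- all the cases for one index -/
theorem core (h20 : (2 : Ω) ≠ 0) {a b k : Ω} {d d' : O} (hd : d ∉ Q) (hd' : d' ∉ Q)
    (hab : a ^ 2 - b ^ 2 = c d) (hak : a ^ 2 - k ^ 2 = c d') (ha : τ a ^ 2 = a ^ 2)
    (hb : τ b ^ 2 = b ^ 2) (hk : τ k ^ 2 = k ^ 2) (hp : τ (a * b * k) = a * b * k) : τ a = a := by
  by_contra hne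
  have ha' : τ a = -a := (sq_eq_sq_iff_eq_or_eq_neg.1 ha).resolve_left hne
  have ha0 : a ≠ 0 := by
    intro h
    apply hne
    rw [h, map_zero]
  by_cases hb0 : b = 0
  · exact zero_case hQ hc h2 hint τ τO hτ hin hd hab hb0 ha'
  by_cases hk0 : k = 0
  · exact zero_case hQ hc h2 hint τ τO hτ hin hd' hak hk0 ha'
  have hnz : 2 * (a * b * k) ≠ 0 := mul_ne_zero h20 (mul_ne_zero (mul_ne_zero ha0 hb0) hk0)
  rw [map_mul, map_mul, ha'] at hp
  rcases sq_eq_sq_iff_eq_or_eq_neg.1 hb with h4 | h4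
  · rcases sq_eq_sq_iff_eq_or_eq_neg.1 hk with h5 | h5
    · apply hnz
      rw [h4, h5] at hp
      linear_combination -hp
    · exact main_case hQ hc h2 hint hdich τ τO hτ hin hd' hak hab hb0 ha' h5 h4
  · rcases sq_eq_sq_iff_eq_or_eq_neg.1 hk with h5 | h5
    · exact main_case hQ hc h2 hint hdich τ τO hτ hin hd hab hak hk0 ha' h4 h5
    · apply hnz
      rw [h4, h5] at hp
      linear_combination -hp

end main

end SIGNN

open SIGNN in
/-- JOB SIGN -/
theorem sign : J_SIGN := by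
  intro hD K _ _ Q hQ h2 τ hτ e r hne hfix hrel hsq hprod
  have hprime : Q.IsPrime := hQ.isPrime
  have hc : Function.Injective (algebraMap (OO K) (AlgebraicClosure K)) :=
    FaithfulSMul.algebraMap_injective _ _
  have h2' : (2 : OO K) ∉ Q := by
    rw [Nat.cast_ofNat] at h2
    exact h2
  have hint : ∀ x : AlgebraicClosure K, (∃ y : OO K, x ^ 2 = algebraMap (OO K) _ y) →
      ∃ z : OO K, x = algebraMap (OO K) _ z := by
    rintro x ⟨y, hy⟩
    have h3 : IsIntegral ℤ (x ^ 2) := by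
      rw [hy]
      exact RingOfIntegers.isIntegral_coe y
    exact ⟨⟨x, IsIntegral.of_pow (by norm_num) h3⟩, rfl⟩
  have h20 : (2 : AlgebraicClosure K) ≠ 0 := two_ne_zero
  set τ' : AlgebraicClosure K →+* AlgebraicClosure K := (τ : AlgebraicClosure K ≃ₐ[K]
    AlgebraicClosure K).toAlgHom.toRingHom with hτ'
  have key : ∀ i j k : Fin 3, i ≠ j → i ≠ k → τ (r i * r j * r k) = r i * r j * r k →
      τ (r i) = r i := by
    intro i j k hij hik hp
    exact core (c := algebraMap (OO K) (AlgebraicClosure K)) hprime hc h2' hint (hD K Q hQ) τ'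
      (fun x => τ • x) (fun x => rfl) hτ h20 (hne j i hij.symm) (hne k i hik.symm) (hrel i j)
      (hrel i k) (hsq i) (hsq j) (hsq k) hp
  have k0 := key 0 1 2 (by decide) (by decide) hprod
  have k1 := key 1 0 2 (by decide) (by decide) (by
    have h3 : r 1 * r 0 * r 2 = r 0 * r 1 * r 2 := by ring
    rw [h3]
    exact hprod)
  have k2 := key 2 0 1 (by decide) (by decide) (by
    have h3 : r 2 * r 0 * r 1 = r 0 * r 1 * r 2 := by ring
    rw [h3]
    exact hprod)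
  intro i
  match i with
  | 0 => exact k0
  | 1 => exact k1
  | 2 => exact k2

end Pool.Agent.H429.T5
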