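import Pool.Agent.H429.T5.Stm

/-!
# The base condition for the fields in the 2-tower (by helper581 for helper429)
-/

set_option autoImplicit false

namespace Pool.Agent.H429.T5

open NumberField Pool.Agent.W569.FM Pool.Agent.W215.FM Pool.Agent.X290.Reg
open scoped Pointwise

namespace TOWN

section transport

variable {K : Type} [Field K] (e : AlgebraicClosure ℚ ≃+* AlgebraicClosure K)

/-- transport of the Galois group -/
noncomputable def phi : GF K →* GF ℚ where
  toFun σ := AlgEquiv.ofRingEquiv (f := (e.trans (σ : AlgebraicClosure K ≃+* AlgebraicClosure K)).trans e.symm)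
    (fun r => by rw [eq_ratCast, map_ratCast])
  map_one' := by
    ext x
    show e.symm (e x) = x
    exact e.symm_apply_apply x
  map_mul' σ τ := by
    ext x
    show e.symm (σ (τ (e x))) = e.symm (σ (e (e.symm (τ (e x)))))
    rw [e.apply_symm_apply]

theorem phi_apply (σ : GF K) (x : AlgebraicClosure ℚ) : phi e σ x = e.symm (σ (e x)) := rfl

theorem phi_inj : Function.Injective (phi e) := by
  intro σ τ h
  ext x
  have h1 := congrArg (fun g : GF ℚ => e (g (e.symm x))) h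
  simp only [phi_apply, e.apply_symm_apply] at h1
  exact h1

/-- an automorphism which fixes the image of `K` -/
theorem exists_phi (g : GF ℚ) (hg : ∀ k : K, g (e.symm (algebraMap K _ k)) = e.symm (algebraMap K _ k)) :
    ∃ σ : GF K, phi e σ = g ∧ ∀ x, σ x = e (g (e.symm x)) := by
  refine ⟨AlgEquiv.ofRingEquiv
    (f := (e.symm.trans (g : AlgebraicClosure ℚ ≃+* AlgebraicClosure ℚ)).trans e)
    (fun k => ?_), ?_, fun x => rfl⟩
  · show e (g (e.symm (algebraMap K _ k))) = algebraMap K _ k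
    rw [hg, e.apply_symm_apply]
  · ext x
    show e.symm (e (g (e.symm (e x)))) = g x
    rw [e.symm_apply_apply, e.symm_apply_apply]

/-- transport of the algebraic integers -/
noncomputable abbrev eps : OO ℚ ≃+* OO K := RingOfIntegers.mapRingEquiv e

theorem eps_smul (σ : GF K) (x : OO ℚ) : eps e (phi e σ • x) = σ • eps e x := by
  apply RingOfIntegers.ext
  show e (e.symm (σ (e x))) = σ (e x)
  rw [e.apply_symm_apply]

theorem eps_symm_smul (σ : GF K) (x : OO K) : (eps e).symm (σ • x) = phi e σ • (eps e).symm x := by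
  apply (eps e).injective
  rw [RingEquiv.apply_symm_apply, eps_smul, RingEquiv.apply_symm_apply]

theorem inertia_tr {P : Ideal (OO ℚ)} {σ : GF K} (h : InInertia P (phi e σ)) :
    InInertia (P.comap (eps e).symm) σ := by
  intro x
  rw [Ideal.mem_comap, map_sub, eps_symm_smul]
  exact h _

theorem dec_tr {P : Ideal (OO ℚ)} {σ : GF K} (h : InDec P (phi e σ)) :
    InDec (P.comap (eps e).symm) σ := by
  intro x
  rw [Ideal.mem_comap, Ideal.mem_comap, eps_symm_smul]
  exact h _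

theorem max_tr {P : Ideal (OO ℚ)} (h : P.IsMaximal) : (P.comap (eps e).symm).IsMaximal :=
  Ideal.comap_isMaximal_of_equiv (eps e).symm

theorem max_tr' {P : Ideal (OO K)} (h : P.IsMaximal) : (P.comap (eps e)).IsMaximal :=
  Ideal.comap_isMaximal_of_equiv (eps e)

end transport

theorem exists_eF (F K : Type) [Field F] [Field K] [Algebra F K] [Algebra.IsAlgebraic F K] :
    Nonempty (AlgebraicClosure F ≃+* AlgebraicClosure K) := by
  have h1 : Algebra.IsAlgebraic F (AlgebraicClosure K) := Algebra.IsAlgebraic.trans F K _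
  have h2 : IsAlgClosure F (AlgebraicClosure K) := ⟨inferInstance, h1⟩
  exact ⟨(IsAlgClosure.equiv F (AlgebraicClosure F) (AlgebraicClosure K)).toRingEquiv⟩

/-- an isomorphism of the algebraic closures -/
theorem exists_e (K : Type) [Field K] [NumberField K] :
    Nonempty (AlgebraicClosure ℚ ≃+* AlgebraicClosure K) := exists_eF ℚ K

/-- restriction to a normal subfield -/
theorem exists_rho (M : Type) [Field M] [NumberField M] [IsGalois ℚ M]
    (i : M →+* AlgebraicClosure ℚ) :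
    ∃ ρ : GF ℚ →* (M ≃ₐ[ℚ] M), ∀ g x, i (ρ g x) = g (i x) := by
  let _ : Algebra M (AlgebraicClosure ℚ) := i.toAlgebra
  have : IsScalarTower ℚ M (AlgebraicClosure ℚ) :=
    IsScalarTower.of_algebraMap_eq' (Subsingleton.elim _ _)
  exact ⟨AlgEquiv.restrictNormalHom M, fun g x => AlgEquiv.restrictNormal_commutes g M x⟩

theorem ker_openF {F : Type} [Field F] (M : Type) [Field M] [Algebra F M] [FiniteDimensional F M]
    (f : M →ₐ[F] AlgebraicClosure F) (ρ : GF F →* (M ≃ₐ[F] M)) (hρ : ∀ g x, f (ρ g x) = g (f x)) :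
    IsOpen (ρ.ker : Set (GF F)) := by
  have hfin : FiniteDimensional F f.fieldRange :=
    LinearMap.finiteDimensional_range (f : M →ₗ[F] AlgebraicClosure F)
  have h1 : (ρ.ker : Set (GF F)) = (f.fieldRange.fixingSubgroup : Set (GF F)) := by
    ext g
    rw [SetLike.mem_coe, SetLike.mem_coe, MonoidHom.mem_ker, IntermediateField.mem_fixingSubgroup_iff]
    constructor
    · rintro hg _ ⟨x, rfl⟩
      show g (f x) = f x
      rw [← hρ, hg]
      rfl
    · intro hg
      ext x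
      apply f.injective
      show f (ρ g x) = f x
      rw [hρ]
      exact hg (f x) ⟨x, rfl⟩
  rw [h1]
  exact IntermediateField.fixingSubgroup_isOpen _

/-- the kernel of the restriction is open -/
theorem ker_open (M : Type) [Field M] [NumberField M]
    (i : M →+* AlgebraicClosure ℚ) (ρ : GF ℚ →* (M ≃ₐ[ℚ] M)) (hρ : ∀ g x, i (ρ g x) = g (i x)) :
    IsOpen (ρ.ker : Set (GF ℚ)) :=
  ker_openF (F := ℚ) M { i with commutes' := fun r => by simp } ρ hρ

theorem open_aux {F : Type} [Field F] (M : Type) [Field M] [Algebra F M] [FiniteDimensional F M]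
    (f : M →ₐ[F] AlgebraicClosure F) (H : Subgroup (GF F)) (hH : ∀ g, (∀ x, g (f x) = f x) → g ∈ H) :
    IsOpen (H : Set (GF F)) := by
  have hfin : FiniteDimensional F f.fieldRange :=
    LinearMap.finiteDimensional_range (f : M →ₗ[F] AlgebraicClosure F)
  refine Subgroup.isOpen_mono (H₁ := f.fieldRange.fixingSubgroup) (fun g hg => hH g fun x => ?_)
    (IntermediateField.fixingSubgroup_isOpen _)
  rw [IntermediateField.mem_fixingSubgroup_iff] at hg
  exact hg (f x) ⟨x, rfl⟩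

/-- the image of an open subgroup is open -/
theorem map_open {K : Type} [Field K] [NumberField K] (e : AlgebraicClosure ℚ ≃+* AlgebraicClosure K)
    (W : Subgroup (GF K)) (hW : IsOpen (W : Set (GF K))) :
    IsOpen ((W.map (phi e) : Subgroup (GF ℚ)) : Set (GF ℚ)) := by
  have hWf : (IntermediateField.fixedField W).fixingSubgroup = W :=
    InfiniteGalois.fixingSubgroup_fixedField ⟨W, Subgroup.isClosed_of_isOpen _ hW⟩
  have hfd : FiniteDimensional K (IntermediateField.fixedField W) :=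
    (InfiniteGalois.isOpen_iff_finite _).1 (by rw [hWf]; exact hW)
  set E := IntermediateField.fixedField W with hE
  have hfd2 : FiniteDimensional ℚ E := FiniteDimensional.trans ℚ K E
  let i : E →+* AlgebraicClosure ℚ := (e.symm : AlgebraicClosure K →+* AlgebraicClosure ℚ).comp E.val.toRingHom
  refine open_aux (F := ℚ) E { i with commutes' := fun r => by simp } _ fun g hg => ?_
  have hg' : ∀ x : E, g (e.symm x) = e.symm x := hg
  obtain ⟨σ, hσ, hσ2⟩ := exists_phi e g fun k => hg' (algebraMap K E k)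
  refine ⟨σ, ?_, hσ⟩
  rw [SetLike.mem_coe, ← hWf, IntermediateField.mem_fixingSubgroup_iff]
  intro x hx
  rw [hσ2, hg' ⟨x, hx⟩, e.apply_symm_apply]

/-- the normal core of an open subgroup is open -/
theorem core_open' (H : Subgroup (GF ℚ)) (hst : IsOpen (H : Set (GF ℚ))) :
    IsOpen (H.normalCore : Set (GF ℚ)) := by
  have hfin : Finite (GF ℚ ⧸ H) := Subgroup.quotient_finite_of_isOpen _ hst
  have hfi : H.FiniteIndex := Subgroup.finiteIndex_of_finite_quotient
  have hcl : IsClosed (H : Set (GF ℚ)) := Subgroup.isClosed_of_isOpen _ hst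
  have hcl2 : IsClosed (H.normalCore : Set (GF ℚ)) := by
    have h1 : (H.normalCore : Set (GF ℚ)) = ⋂ b : GF ℚ, {a | b * a * b⁻¹ ∈ (H : Set (GF ℚ))} := by
      ext a
      rw [Set.mem_iInter]
      rfl
    rw [h1]
    refine isClosed_iInter fun b => hcl.preimage ?_
    exact (continuous_const.mul continuous_id).mul continuous_const
  exact Subgroup.isOpen_of_isClosed_of_finiteIndex _ hcl2

/-- the integers of the fixed field of everything -/
theorem one_top : OnePrime 2 (FF (⊤ : Subgroup (GF ℚ))) := by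
  have hint : ∀ x : 𝓞 (FF (⊤ : Subgroup (GF ℚ))), ∃ n : ℤ, x = (n : 𝓞 (FF (⊤ : Subgroup (GF ℚ)))) := by
    intro x
    obtain ⟨r, hr⟩ := Pool.Agent.X290.FM2.fixed_rat (F := ℚ) ((x : FF (⊤ : Subgroup (GF ℚ))) : AlgebraicClosure ℚ)
      (fun g => (x : FF (⊤ : Subgroup (GF ℚ))).2 ⟨g, trivial⟩)
    have h2 : IsIntegral ℤ ((x : FF (⊤ : Subgroup (GF ℚ))) : AlgebraicClosure ℚ) :=
      (isIntegral_algebraMap_iff (algebraMap (FF (⊤ : Subgroup (GF ℚ))) (AlgebraicClosure ℚ)).injective).2 x.2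
    rw [← hr] at h2
    have h3 : IsIntegral ℤ r :=
      (isIntegral_algebraMap_iff (algebraMap ℚ (AlgebraicClosure ℚ)).injective).1 h2
    obtain ⟨n, hn⟩ := IsIntegrallyClosed.isIntegral_iff.1 h3
    refine ⟨n, RingOfIntegers.ext (Subtype.ext ?_)⟩
    rw [← hr, ← hn]
    simp
  have hmem : ∀ (P : Ideal (𝓞 (FF (⊤ : Subgroup (GF ℚ))))), P.IsMaximal →
      ((2 : ℕ) : 𝓞 (FF (⊤ : Subgroup (GF ℚ)))) ∈ P →
      ∀ n : ℤ, (n : 𝓞 (FF (⊤ : Subgroup (GF ℚ)))) ∈ P ↔ (2 : ℤ) ∣ n := by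
    intro P hP h2 n
    constructor
    · intro hn
      by_contra h
      obtain ⟨k, hk⟩ : Odd n := by
        rw [← Int.not_even_iff_odd, even_iff_two_dvd]; exact h
      apply hP.ne_top
      rw [Ideal.eq_top_iff_one]
      have h1 : (n : 𝓞 (FF (⊤ : Subgroup (GF ℚ)))) - k * ((2 : ℕ) : 𝓞 (FF (⊤ : Subgroup (GF ℚ)))) = 1 := by
        rw [hk]; push_cast; ring
      rw [← h1]
      exact P.sub_mem hn (P.mul_mem_left _ h2)
    · rintro ⟨k, rfl⟩
      push_cast
      exact P.mul_mem_right _ (by exact_mod_cast h2)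
  intro P Q hP hQ hpP hpQ
  ext x
  obtain ⟨n, rfl⟩ := hint x
  rw [hmem P hP hpP, hmem Q hQ hpQ]

/-- the inertia groups are in the kernel of the restriction -/
theorem inertia_ker (q : ℕ) (M : Type) [Field M] [NumberField M]
    (hunr : ∀ Q : Ideal (𝓞 M), Q.IsMaximal → ((2 : ℕ) : 𝓞 M) ∉ Q → ((q : ℕ) : 𝓞 M) ∉ Q → ∀ g : M ≃ₐ[ℚ] M,
      (∀ x y : 𝓞 M, (y : M) = g (x : M) → y - x ∈ Q) → g = 1)
    (i : M →+* AlgebraicClosure ℚ) (ρ : GF ℚ →* (M ≃ₐ[ℚ] M)) (hρ : ∀ g x, i (ρ g x) = g (i x))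
    (Q : Ideal (OO ℚ)) (hQ : Q.IsMaximal) (h2 : ((2 : ℕ) : OO ℚ) ∉ Q) (hq : ((q : ℕ) : OO ℚ) ∉ Q)
    (τ : GF ℚ) (hτ : InInertia Q τ) : ρ τ = 1 := by
  let f : 𝓞 M →+* OO ℚ := RingOfIntegers.mapRingHom i
  have hf : f.IsIntegral := by
    let _ : Algebra (𝓞 M) (OO ℚ) := f.toAlgebra
    intro x
    have h1 : IsIntegral ℤ x := RingOfIntegers.isIntegral x
    exact h1.tower_top (A := 𝓞 M)
  refine hunr (Q.comap f) (Ideal.isMaximal_comap_of_isIntegral_of_isMaximal' f hf Q) ?_ ?_ _ ?_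
  · rw [Ideal.mem_comap, map_natCast]
    exact h2
  · rw [Ideal.mem_comap, map_natCast]
    exact hq
  · intro x y hxy
    rw [Ideal.mem_comap, map_sub]
    have h1 : f y = τ • f x := by
      apply RingOfIntegers.ext
      show i (y : M) = τ (i (x : M))
      rw [hxy, hρ]
    rw [h1]
    exact hτ (f x)

end TOWN

open TOWN in
theorem tow : S_TOW := by
  intro q hq h8 K M _ _ _ _ _ _ a hfin hunr
  have h2f : Fact (Nat.Prime 2) := ⟨Nat.prime_two⟩
  obtain ⟨e⟩ := exists_e K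
  have halg : Algebra.IsAlgebraic K M := Algebra.IsAlgebraic.tower_top (K := ℚ) K
  let j : M →ₐ[K] AlgebraicClosure K := IsAlgClosed.lift
  let i : M →+* AlgebraicClosure ℚ :=
    (e.symm : AlgebraicClosure K →+* AlgebraicClosure ℚ).comp (j : M →+* AlgebraicClosure K)
  have hi : ∀ k : K, i (algebraMap K M k) = e.symm (algebraMap K _ k) := by
    intro k
    show e.symm (j (algebraMap K M k)) = _
    rw [j.commutes]
  obtain ⟨ρ, hρ⟩ := exists_rho M i
  have hN1o := ker_open M i ρ hρ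
  have hN1K : ∀ g ∈ ρ.ker, ∃ σ : GF K, phi e σ = g ∧ ∀ x, σ x = e (g (e.symm x)) := by
    intro g hg
    refine exists_phi e g fun k => ?_
    rw [← hi, ← hρ, MonoidHom.mem_ker.1 hg]
    rfl
  have hI1 := inertia_ker q M hunr i ρ hρ
  have hpow1 : ∀ g : GF ℚ, g ^ 2 ^ a ∈ ρ.ker := by
    intro g
    rw [MonoidHom.mem_ker, map_pow, ← hfin, ← IsGalois.card_aut_eq_finrank ℚ M]
    exact pow_card_eq_one'
  have hIN1 : ∀ Q : Ideal (OO ℚ), Q.IsMaximal → ((2 : ℕ) : OO ℚ) ∉ Q →
      algebraMap (𝓞 ℚ) (OO ℚ) ((q : ℕ) : 𝓞 ℚ) ∉ Q → ∀ τ, InInertia Q τ → τ ∈ ρ.ker := by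
    intro Q hQ h2 hqQ τ hτ
    rw [map_natCast] at hqQ
    exact hI1 Q hQ h2 hqQ τ hτ
  refine ⟨?_, ?_⟩
  · intro W _ hWo hWn hidx hI hD
    rw [Subgroup.relIndex_top_right] at hidx
    set H : Subgroup (GF ℚ) := W.map (phi e) with hH
    have hHo : IsOpen (H : Set (GF ℚ)) := map_open e W hWo
    have hNo := core_open' H hHo
    have hmemN : ∀ g : GF ℚ, (∀ b : GF ℚ, b * g * b⁻¹ ∈ H) → g ∈ H.normalCore := fun g hg => hg
    -- inertia
    have hur0 : ∀ Q : Ideal (OO ℚ), Q.IsMaximal → ((2 : ℕ) : OO ℚ) ∉ Q → ((q : ℕ) : OO ℚ) ∉ Q →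
        ∀ τ, InInertia Q τ → τ ∈ H := by
      intro Q hQ h2 hqQ τ hτ
      obtain ⟨σ, hσ, -⟩ := hN1K τ (hI1 Q hQ h2 hqQ τ hτ)
      refine ⟨σ, ?_, hσ⟩
      refine hI (Q.comap (eps e).symm) (max_tr e hQ) ?_ σ (inertia_tr e (by rw [hσ]; exact hτ)) trivial
      rw [map_natCast, Ideal.mem_comap, map_natCast]
      exact hqQ
    have hur : ∀ Q : Ideal (OO ℚ), Q.IsMaximal → ((2 : ℕ) : OO ℚ) ∉ Q →
        algebraMap (𝓞 ℚ) (OO ℚ) ((q : ℕ) : 𝓞 ℚ) ∉ Q → ∀ τ, InInertia Q τ → τ ∈ H.normalCore := by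
      intro Q hQ h2 hqQ τ hτ
      rw [map_natCast] at hqQ
      refine hmemN τ fun b => ?_
      obtain ⟨Q', hQ', hl, hc⟩ := conj_ideal b Q hQ
      exact hur0 Q' hQ' (fun h => h2 ((hl 2).1 h)) (fun h => hqQ ((hl q).1 h)) _ (hc τ hτ)
    have hpow : ∀ u ∈ (⊤ : Subgroup (GF ℚ)), ∃ k : ℕ, u ^ 2 ^ k ∈ H.normalCore := by
      intro g _
      refine ⟨a + 1, hmemN _ fun b => ?_⟩
      obtain ⟨σ, hσ, -⟩ := hN1K _ (hpow1 (b * g * b⁻¹))
      have e1 : b * g ^ 2 ^ (a + 1) * b⁻¹ = phi e (σ ^ 2) := by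
        rw [map_pow, hσ, ← pow_mul, ← pow_succ, conj_pow]
      rw [e1]
      exact ⟨σ ^ 2, Subgroup.sq_mem_of_index_two hidx σ, rfl⟩
    obtain ⟨P, hP, hP2⟩ := exists_max 2 Nat.prime_two
    have hall : ∀ σ : GF K, σ ∈ W := by
      intro σ
      obtain ⟨d, hd, -, hdN⟩ := mod_openD (⊤ : Subgroup (GF ℚ)) isOpen_univ (noSplit_Q q hq h8)
        one_top hP hP2 H.normalCore hNo hur hpow (phi e σ) trivial
      obtain ⟨w, hw, hw2⟩ := Subgroup.normalCore_le H hdN
      have e1 : phi e (σ * w⁻¹) = d := by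
        rw [map_mul, map_inv, hw2]
        group
      have h1 := hD (P.comap (eps e).symm) (max_tr e hP) (by
        rw [Ideal.mem_comap, map_natCast]; exact hP2) (σ * w⁻¹) (dec_tr e (by rw [e1]; exact hd)) trivial
      have h2 := W.mul_mem h1 hw
      rwa [inv_mul_cancel_right] at h2
    have : W = ⊤ := by rw [Subgroup.eq_top_iff']; exact hall
    rw [this, Subgroup.index_top] at hidx
    omega
  · intro P Q hP hQ hP2 hQ2
    have hint : Algebra.IsIntegral (𝓞 K) (OO K) := by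
      refine ⟨fun x => ?_⟩
      have h1 : IsIntegral ℤ x := RingOfIntegers.isIntegral x
      exact h1.tower_top
    have hker : RingHom.ker (algebraMap (𝓞 K) (OO K)) = ⊥ :=
      (RingHom.injective_iff_ker_eq_bot _).1 (FaithfulSMul.algebraMap_injective (𝓞 K) (OO K))
    obtain ⟨P', hP', hP'P⟩ := Ideal.exists_ideal_over_maximal_of_isIntegral (S := OO K) P
      (by rw [hker]; exact bot_le)
    obtain ⟨Q', hQ', hQ'Q⟩ := Ideal.exists_ideal_over_maximal_of_isIntegral (S := OO K) Q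
      (by rw [hker]; exact bot_le)
    have hP'2 : ((2 : ℕ) : OO ℚ) ∈ P'.comap (eps e) := by
      rw [← hP'P, Ideal.mem_comap, map_natCast] at hP2
      rw [Ideal.mem_comap, map_natCast]
      exact hP2
    have hQ'2 : ((2 : ℕ) : OO ℚ) ∈ Q'.comap (eps e) := by
      rw [← hQ'Q, Ideal.mem_comap, map_natCast] at hQ2
      rw [Ideal.mem_comap, map_natCast]
      exact hQ2
    obtain ⟨g, -, hg⟩ := exists_conj_U (⊤ : Subgroup (GF ℚ)) isClosed_univ one_top
      (max_tr' e hP') (max_tr' e hQ') hP'2 hQ'2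
    obtain ⟨d, hd, -, hdN⟩ := mod_openD (⊤ : Subgroup (GF ℚ)) isOpen_univ (noSplit_Q q hq h8)
      one_top (max_tr' e hP') hP'2 ρ.ker hN1o hIN1 (fun u _ => ⟨a, hpow1 u⟩) g trivial
    have hn : g * d⁻¹ ∈ ρ.ker := by
      have h1 : ρ (d⁻¹ * g) = 1 := hdN
      rw [MonoidHom.mem_ker, map_mul, map_inv]
      rw [map_mul, map_inv, inv_mul_eq_one] at h1
      rw [h1, mul_inv_cancel]
    obtain ⟨ν, hν, -⟩ := hN1K _ hn
    have hd2 : d⁻¹ • (P'.comap (eps e)) = P'.comap (eps e) := by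
      have h1 := MulAction.mem_stabilizer_iff.1 (inDec_iff.1 hd)
      conv_lhs => rw [← h1]
      rw [inv_smul_smul]
    have hQn : Q'.comap (eps e) = phi e ν • (P'.comap (eps e)) := by
      rw [hν, hg, mul_smul]
      have h1 := MulAction.mem_stabilizer_iff.1 (inDec_iff.1 hd)
      rw [hd2]
    ext x
    rw [← hP'P, ← hQ'Q, Ideal.mem_comap, Ideal.mem_comap]
    set y := algebraMap (𝓞 K) (OO K) x with hy
    have hfix : ∀ σ : GF K, σ • y = y := by
      intro σ
      apply RingOfIntegers.ext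
      show σ (algebraMap K (AlgebraicClosure K) (x : K)) = algebraMap K (AlgebraicClosure K) (x : K)
      exact σ.commutes _
    have h3 : y ∈ Q' ↔ (eps e).symm y ∈ Q'.comap (eps e) := by
      rw [Ideal.mem_comap, RingEquiv.apply_symm_apply]
    have h4 : y ∈ P' ↔ (eps e).symm y ∈ P'.comap (eps e) := by
      rw [Ideal.mem_comap, RingEquiv.apply_symm_apply]
    rw [h3, h4, hQn, Ideal.mem_pointwise_smul_iff_inv_smul_mem, ← map_inv, ← eps_symm_smul, hfix]

end Pool.Agent.H429.T5
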