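import Pool.Agent.H429.T5.Cur4
import Pool.Agent.H429.T5.HALF
import Pool.Agent.H429.T5.DICH
import Pool.Agent.H429.T5.SIGN
import Pool.Agent.H429.T5.TOW
import Pool.Agent.H429.T5.LOC

/-!
# Divisibility and independence in the completion above two (helper429)
-/

set_option autoImplicit false
set_option linter.all false

namespace Pool.Agent.H429.T5

open NumberField IsDedekindDomain Pool.Agent.W569.FM Pool.Agent.W215.FM Pool.Agent.X290.Reg
open Pool.Agent.H429.T3 WeierstrassCurve WeierstrassCurve.Affine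
open scoped Pointwise Classical

variable {K : Type} [Field K] [NumberField K]

theorem sat_group {p : ℕ} {t : 𝓞 K} [hp : Fact p.Prime] (U : Subgroup (GF K))
    (hUo : IsOpen (U : Set (GF K))) (hNS : NoSplitG p t U) (hone : OnePrime p (FF U))
    {P : Ideal (OO K)} (hP : P.IsMaximal) (hpP : (p : OO K) ∈ P) (M : Type) [AddCommGroup M]
    [DistribMulAction (GF K) M]
    (hst : ∀ y : M, IsOpen (MulAction.stabilizer (GF K) y : Set (GF K)))
    (hur : ∀ (n : ℕ) (y : M), (∀ g : GF K, g • (p ^ n • y) = p ^ n • y) → ∀ Q : Ideal (OO K),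
      Q.IsMaximal → (p : OO K) ∉ Q → algebraMap (𝓞 K) (OO K) t ∉ Q → ∀ τ, InInertia Q τ → τ • y = y)
    (hpow : ∀ y : M, p • y = 0 → ∀ u ∈ U, ∃ k : ℕ, u ^ p ^ k • y = y)
    (n : ℕ) (y : M) (hyL : ∀ d, InDec P d → d • y = y)
    (hy : ∀ g : GF K, g • (p ^ n • y) = p ^ n • y) : ∀ g : GF K, g • y = y := by
  have hrat : ∀ (n : ℕ) (y : M), (∀ g : GF K, g • (p ^ n • y) = p ^ n • y) → ∀ g h : GF K,
      h • (p ^ n • (g • y)) = p ^ n • (g • y) := by
    intro n y hy g h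
    have h1 : p ^ n • (g • y) = p ^ n • y := by
      rw [← smul_comm g (p ^ n) y]
      exact hy g
    rw [h1]
    exact hy h
  intro g
  obtain ⟨d, hd, h⟩ := orbit_valuesD U hUo hNS hone hP hpP
    y (hst y) (fun Q hQ hpQ htQ τ hτ g => hur n (g • y) (hrat n y hy g) Q hQ hpQ htQ τ hτ)
    (fun u hu g => Pool.Agent.X290.Reg.ppow U hpow n (g • y) u hu
      (hrat n y hy g u)) g
  rw [← h]
  exact hyL d hd

/-- The theorem on elliptic curves. -/
theorem ell {t : 𝓞 K} (U : Subgroup (GF K)) (hUo : IsOpen (U : Set (GF K)))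
    (hNS : NoSplitG 2 t U) (hone : OnePrime 2 (FF U)) {a b c : 𝓞 K} (h0 : dsc a b c ≠ 0)
    (hd : ∀ Q : Ideal (𝓞 K), Q.IsMaximal → dsc a b c ∈ Q → ((2 : ℕ) : 𝓞 K) ∈ Q ∨ t ∈ Q)
    (z : AlgebraicClosure K) (hzU : ∀ u ∈ U, u z = z)
    (hz : z ^ 3 + algebraMap K (AlgebraicClosure K) a * z ^ 2 +
      algebraMap K (AlgebraicClosure K) b * z + algebraMap K (AlgebraicClosure K) c = 0)
    (v : HeightOneSpectrum (𝓞 K)) (hv : ((2 : ℕ) : 𝓞 K) ∈ v.asIdeal) :
    (∀ (n : ℕ) (P : (crv a b c).toAffine.Point),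
      (∃ R, mp (crv a b c) (algebraMap K (v.adicCompletion K)) P = (2 ^ n : ℤ) • R) →
        ∃ Q, P = (2 ^ n : ℤ) • Q) ∧
    ∀ (r : ℕ) (P : Fin r → (crv a b c).toAffine.Point), LinearIndependent ℤ P → ∀ x : Fin r → ℤ_[2],
      (∀ n : ℕ, ∃ m : Fin r → ℤ, (∀ i, (2 : ℤ_[2]) ^ n ∣ m i - x i) ∧
        ∃ R, mp (crv a b c) (algebraMap K (v.adicCompletion K)) (∑ i, m i • P i) =
          (2 ^ n : ℤ) • R) → x = 0 := by
  obtain ⟨e, he, hez⟩ := exists_rts a b c z hz
  have hd' : ∀ Q : Ideal (OO K), Q.IsMaximal → ((2 : ℕ) : OO K) ∉ Q →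
      algebraMap (𝓞 K) (OO K) t ∉ Q → algebraMap (𝓞 K) (OO K) (dsc a b c) ∉ Q := by
    intro Q hQ h2 ht hdQ
    have hQ' : (Q.comap (algebraMap (𝓞 K) (OO K))).IsMaximal :=
      Ideal.isMaximal_comap_of_isIntegral_of_isMaximal Q
    rcases hd _ hQ' hdQ with h | h
    · rw [Ideal.mem_comap, map_natCast] at h
      exact h2 h
    · exact ht h
  have hfixz : ∀ u ∈ U, u • e 0 = e 0 := by
    intro u hu
    apply RingOfIntegers.ext
    show u (e 0 : AlgebraicClosure K) = e 0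
    rw [hez]
    exact hzU u hu
  let _ := galAct (crv a b c)
  have hsat : ∀ P' : Ideal (OO K), P'.IsMaximal → ((2 : ℕ) : OO K) ∈ P' → ∀ (n : ℕ)
      (y : Pts (crv a b c)), (∀ d, InDec P' d → ga (crv a b c) d y = y) →
      (∀ g, ga (crv a b c) g (2 ^ n • y) = 2 ^ n • y) → ∀ g, ga (crv a b c) g y = y := by
    intro P' hP' h2' n y hyL hy
    refine sat_group U hUo hNS hone hP' h2' (Pts (crv a b c)) (stab_open_pt _) ?_ ?_ n y hyL hy
    · intro n y hy Q hQ h2 ht τ hτ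
      exact he.unram half (sign dich) hQ h2 (hd' Q hQ h2 ht) hτ n y (hy τ)
    · intro y hy u hu
      refine ⟨1, ?_⟩
      have h := he.two_pow y hy u (hfixz u hu)
      show (u ^ 2 ^ 1) • y = y
      rw [pow_one, sq]
      exact h
  exact ⟨fun n P hP => he.lg half loc hsat v hv n P hP,
    fun r P hP x hx => he.ind half loc h0 hsat v hv r P hP x hx⟩

end Pool.Agent.H429.T5
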