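import Pool.Agent.H429.T5.Main

/-!
# Example: `ℚ`, `p = 2`, `t = q ≡ ± 3 mod 8` (helper429)
-/

set_option autoImplicit false

namespace Pool.Agent.H429.T5

open NumberField Pool.Agent.W569.FM Pool.Agent.W215.FM Pool.Agent.X290.Reg
open scoped Pointwise

/-- an open subgroup of index two is the stabilizer of the square root of a squarefree integer -/
theorem exists_sqrt (W : Subgroup (GF ℚ)) (hW : IsOpen (W : Set (GF ℚ))) (h2 : W.index = 2) :
    ∃ (s : OO ℚ) (d : ℤ), s ^ 2 = d ∧ Squarefree d ∧ s ≠ 0 ∧ (∀ g ∈ W, g • s = s) ∧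
      ∀ g, g ∉ W → g • s = -s := by
  have hn : W.Normal := Subgroup.normal_of_index_eq_two h2
  obtain ⟨g0, hg0⟩ : ∃ g0, g0 ∉ W := by
    by_contra h
    push Not at h
    have : W = ⊤ := by rw [Subgroup.eq_top_iff']; exact h
    rw [this, Subgroup.index_top] at h2
    omega
  have hfix : (FF W).fixingSubgroup = W :=
    InfiniteGalois.fixingSubgroup_fixedField ⟨W, Subgroup.isClosed_of_isOpen _ hW⟩
  obtain ⟨z, hz, hz0⟩ : ∃ z ∈ FF W, g0 z ≠ z := by
    by_contra h
    push Not at h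
    apply hg0
    rw [← hfix, IntermediateField.mem_fixingSubgroup_iff]
    exact h
  have hzW : ∀ g ∈ W, g z = z := (IntermediateField.mem_fixedField_iff W z).1 hz
  have hmul := fun a b : GF ℚ => Subgroup.mul_mem_iff_of_index_two h2 (a := a) (b := b)
  set δ : AlgebraicClosure ℚ := z - g0 z with hδ
  have hδ0 : δ ≠ 0 := sub_ne_zero.2 (Ne.symm hz0)
  have h1 : ∀ g ∈ W, g δ = δ := by
    intro g hg
    have h3 : g0⁻¹ * g * g0 ∈ W := by
      have := hn.conj_mem g hg g0⁻¹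
      rwa [inv_inv] at this
    have h4 := hzW _ h3
    have h5 : g (g0 z) = g0 z := by
      have h6 : g (g0 z) = g0 ((g0⁻¹ * g * g0) z) := by
        show (g * g0) z = (g0 * (g0⁻¹ * g * g0)) z
        congr 1
        group
      rw [h6, h4]
    rw [hδ, map_sub, hzW g hg, h5]
  have h3 : ∀ g, g ∉ W → g δ = -δ := by
    intro g hg
    have h4 : g0⁻¹ * g ∈ W := by
      rw [hmul]
      simp [hg, hg0]
    have h5 : g * g0 ∈ W := by
      rw [hmul]
      simp [hg, hg0]
    have h6 : g z = g0 z := by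
      have := congrArg g0 (hzW _ h4)
      have h7 : g0 ((g0⁻¹ * g) z) = g z := by
        show (g0 * (g0⁻¹ * g)) z = g z
        rw [mul_inv_cancel_left]
      rw [← h7, this]
    have h8 : g (g0 z) = z := hzW _ h5
    rw [hδ, map_sub, h6, h8]
    ring
  obtain ⟨r, hr⟩ := Pool.Agent.X290.FM2.fixed_rat (F := ℚ) (δ ^ 2) (fun g => by
    rw [map_pow]
    by_cases hg : g ∈ W
    · rw [h1 g hg]
    · rw [h3 g hg, neg_sq])
  have hr0 : r ≠ 0 := by
    rintro rfl
    rw [map_zero] at hr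
    exact hδ0 (pow_eq_zero_iff two_ne_zero |>.1 hr.symm)
  -- scale
  obtain ⟨a, b, hab, ha⟩ := Nat.sq_mul_squarefree (r.num.natAbs * r.den)
  have hm0 : r.num.natAbs * r.den ≠ 0 :=
    Nat.mul_ne_zero (Int.natAbs_ne_zero.2 (Rat.num_ne_zero.2 hr0)) r.den_nz
  have hb0 : b ≠ 0 := by
    rintro rfl
    apply hm0
    rw [← hab]
    ring
  set d : ℤ := r.num.sign * a with hd
  have hdd : d * (b : ℤ) ^ 2 = r.num * r.den := by
    have h4 : (r.num.sign : ℤ) * (r.num.natAbs : ℤ) = r.num := Int.sign_mul_natAbs _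
    have h5 : ((b : ℤ) ^ 2 * a) = (r.num.natAbs : ℤ) * r.den := by exact_mod_cast hab
    calc d * (b : ℤ) ^ 2 = r.num.sign * ((b : ℤ) ^ 2 * a) := by rw [hd]; ring
      _ = (r.num.sign * r.num.natAbs) * r.den := by rw [h5]; ring
      _ = _ := by rw [h4]
  have hsq : Squarefree d := by
    rw [← Int.squarefree_natAbs]
    have : d.natAbs = a := by
      rw [hd, Int.natAbs_mul, Int.natAbs_sign_of_ne_zero (Rat.num_ne_zero.2 hr0), one_mul,
        Int.natAbs_natCast]
    rw [this]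
    exact ha
  have hbc : ((b : ℕ) : AlgebraicClosure ℚ) ≠ 0 := Nat.cast_ne_zero.2 hb0
  set s1 : AlgebraicClosure ℚ := (r.den : AlgebraicClosure ℚ) * δ / b with hs1
  have hs1sq : s1 ^ 2 = (d : AlgebraicClosure ℚ) := by
    have h4 : (algebraMap ℚ (AlgebraicClosure ℚ) r) = δ ^ 2 := hr
    have h5 : (r.den : ℚ) ^ 2 * r = (r.num * r.den : ℤ) := by
      have h6 : (r.den : ℚ) ≠ 0 := Nat.cast_ne_zero.2 r.den_nz
      have h7 : r * r.den = r.num := Rat.mul_den_eq_num r
      push_cast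
      rw [← h7]
      ring
    have h8 : ((r.den : AlgebraicClosure ℚ)) ^ 2 * δ ^ 2 = ((r.num * r.den : ℤ) : AlgebraicClosure ℚ) := by
      rw [← h4]
      have := congrArg (algebraMap ℚ (AlgebraicClosure ℚ)) h5
      rw [map_mul, map_pow, map_natCast, map_intCast] at this
      exact this
    rw [hs1, div_pow, mul_pow, h8, ← hdd]
    push_cast
    field_simp
  have hint : IsIntegral ℤ s1 := by
    refine ⟨Polynomial.X ^ 2 - Polynomial.C d, Polynomial.monic_X_pow_sub_C _ two_ne_zero, ?_⟩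
    rw [Polynomial.eval₂_sub, Polynomial.eval₂_X_pow, Polynomial.eval₂_C, hs1sq]
    simp
  have hs10 : s1 ≠ 0 := by
    rw [hs1]
    exact div_ne_zero (mul_ne_zero (Nat.cast_ne_zero.2 r.den_nz) hδ0) hbc
  have hact : ∀ g : GF ℚ, g s1 = (r.den : AlgebraicClosure ℚ) * g δ / b := by
    intro g
    rw [hs1, map_div₀, map_mul, map_natCast, map_natCast]
  let s : OO ℚ := ⟨s1, hint⟩
  refine ⟨s, d, ?_, hsq, ?_, ?_, ?_⟩
  · apply RingOfIntegers.ext
    show s1 ^ 2 = _
    rw [hs1sq]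
    simp
  · intro h
    exact hs10 (congrArg (fun z : OO ℚ => (z : AlgebraicClosure ℚ)) h)
  · intro g hg
    apply RingOfIntegers.ext
    show g s1 = s1
    rw [hact, h1 g hg]
  · intro g hg
    apply RingOfIntegers.ext
    show g s1 = -s1
    rw [hact, h3 g hg, hs1]
    ring

theorem exists_max (l : ℕ) (hl : l.Prime) : ∃ Q : Ideal (OO ℚ), Q.IsMaximal ∧ (l : OO ℚ) ∈ Q := by
  have h1 : ¬ IsUnit ((l : OO ℚ)) := by
    intro hu
    have h2 : IsUnit ((l : ℤ) : OO ℚ) := by exact_mod_cast hu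
    obtain ⟨P, hP⟩ := Ideal.exists_maximal (𝓞 ℚ)
    have h3 : IsIntegral ℤ ((l : AlgebraicClosure ℚ)⁻¹) := by
      obtain ⟨v, hv⟩ := hu.exists_right_inv
      have h4 : (l : AlgebraicClosure ℚ) * (v : AlgebraicClosure ℚ) = 1 := by
        have := congrArg (fun z : OO ℚ => (z : AlgebraicClosure ℚ)) hv
        simpa using this
      have h5 : (l : AlgebraicClosure ℚ)⁻¹ = (v : AlgebraicClosure ℚ) :=
        inv_eq_of_mul_eq_one_right h4
      rw [h5]
      exact v.2
    have h4 : IsIntegral ℤ ((l : ℚ)⁻¹) := by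
      have h5 : IsIntegral ℤ (algebraMap ℚ (AlgebraicClosure ℚ) ((l : ℚ)⁻¹)) := by
        rw [map_inv₀, map_natCast]
        exact h3
      exact (isIntegral_algebraMap_iff (algebraMap ℚ (AlgebraicClosure ℚ)).injective).1 h5
    obtain ⟨n, hn⟩ := IsIntegrallyClosed.isIntegral_iff.1 h4
    have h5 : (n : ℚ) * l = 1 := by
      have h6 : (n : ℚ) = (l : ℚ)⁻¹ := by simpa using hn
      rw [h6]
      exact inv_mul_cancel₀ (Nat.cast_ne_zero.2 hl.ne_zero)
    have h6 : n * (l : ℤ) = 1 := by exact_mod_cast h5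
    have h7 := Int.isUnit_iff.1 (IsUnit.of_mul_eq_one_right n h6)
    have := hl.one_lt
    omega
  obtain ⟨Q, hQ, hle⟩ := Ideal.exists_le_maximal (Ideal.span {(l : OO ℚ)}) (by
    rw [Ne, Ideal.span_singleton_eq_top]; exact h1)
  exact ⟨Q, hQ, hle (Ideal.mem_span_singleton_self _)⟩

theorem noSplit_Q (q : ℕ) (hq : q.Prime) (h : q % 8 = 3 ∨ q % 8 = 5) :
    NoSplitG 2 ((q : ℕ) : 𝓞 ℚ) (⊤ : Subgroup (GF ℚ)) := by
  intro W _ hWo _ hidx hI hD
  rw [Subgroup.relIndex_top_right] at hidx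
  obtain ⟨s, d, hs, hd, hs0, hW1, hW2⟩ := exists_sqrt W hWo hidx
  obtain ⟨g0, hg0⟩ : ∃ g0, g0 ∉ W := by
    by_contra h
    push Not at h
    have : W = ⊤ := by rw [Subgroup.eq_top_iff']; exact h
    rw [this, Subgroup.index_top] at hidx
    omega
  have hgs : g0 • s = -s := hW2 g0 hg0
  have hne : s ≠ -s := by
    intro h
    apply hs0
    have h1 : (2 : OO ℚ) * s = 0 := by linear_combination h
    exact (mul_eq_zero.1 h1).resolve_left two_ne_zero
  -- primes dividing `d`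
  have hdiv : ∀ l : ℕ, l.Prime → (l : ℤ) ∣ d → l = q := by
    intro l hl hld
    by_contra hlq
    obtain ⟨Q, hQ, hlQ⟩ := exists_max l hl
    have hqQ : (q : OO ℚ) ∉ Q := by
      intro hqQ
      have h1 : (l : ℤ) ∣ (q : ℤ) := by
        apply Pool.Agent.X290.FM2.int_mem hQ.isPrime hl hlQ
        exact_mod_cast hqQ
      exact hlq ((Nat.prime_dvd_prime_iff_eq hl hq).1 (by exact_mod_cast h1))
    obtain ⟨τ, hτ, hτs⟩ := Pool.Agent.X290.FM2.ram hs hs0 hd hgs hld Q hQ.isPrime hlQ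
    have h1 := hW1 τ (hI Q hQ (by rw [map_natCast]; exact hqQ) τ hτ trivial)
    rw [h1] at hτs
    exact hne hτs
  obtain ⟨P, hP, hP2'⟩ := exists_max 2 Nat.prime_two
  have hP2 : (2 : OO ℚ) ∈ P := by exact_mod_cast hP2'
  have h8 : d % 8 = 1 := Pool.Agent.X290.FM2.split hs hs0 hd hgs P hP hP2 (fun g hg =>
    hW1 g (hD P hP (by exact_mod_cast hP2) g hg trivial))
  -- `d = ± 1, ± q`
  have hdn : d.natAbs ∣ q := by
    rw [← Int.squarefree_natAbs] at hd
    rw [← Nat.prod_primeFactors_of_squarefree hd]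
    refine Finset.prod_primes_dvd q (fun l hl => (Nat.prime_of_mem_primeFactors hl).prime) ?_
    intro l hl
    rw [hdiv l (Nat.prime_of_mem_primeFactors hl)
      (Int.natCast_dvd.2 (Nat.dvd_of_mem_primeFactors hl))]
  rcases (Nat.dvd_prime hq).1 hdn with h1 | h1
  · -- `d = ± 1`
    have hd1 : d = 1 := by omega
    rw [hd1] at hs
    have h3 : s = 1 ∨ s = -1 := by
      have : s ^ 2 = 1 ^ 2 := by rw [hs]; norm_num
      exact sq_eq_sq_iff_eq_or_eq_neg.1 this
    have h4 : g0 • s = s := by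
      rcases h3 with rfl | rfl
      · exact smul_one _
      · rw [smul_neg, smul_one]
    rw [h4] at hgs
    exact hne hgs
  · omega

end Pool.Agent.H429.T5
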