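import Pool.Graph.R_pool_sql_team_seeded_64922ed1.X290.Reg.AV
import Pool.Graph.R_pool_sql_team_seeded_64922ed1.X290.FM2.Quad

/-!
# Modules with ramification at `p` and at primes dividing `t`: the image of the decomposition group at `p` (helper429)
-/

set_option autoImplicit false

namespace Pool.Agent.H429.T5

open NumberField Pool.Agent.W569.FM Pool.Agent.W215.FM Pool.Agent.X290.Reg
open scoped Pointwise

theorem coatom_index {p : ℕ} [hp : Fact p.Prime] {G : Type} [Group G] [Finite G] (hG : IsPGroup p G)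
    (M : Subgroup G) (hM : IsCoatom M) : M.index = p := by
  obtain ⟨N, hN⟩ := (IsPGroup.iff_card).1 hG
  obtain ⟨n, hn⟩ := (IsPGroup.iff_card).1 (hG.to_subgroup M)
  have hlt : n < N := by
    have h1 : p ^ n ∣ p ^ N := by
      rw [← hn, ← hN]
      exact Subgroup.card_subgroup_dvd_card M
    have h2 : n ≤ N := (Nat.pow_dvd_pow_iff_le_right hp.out.one_lt).1 h1
    rcases h2.lt_or_eq with h | h
    · exact h
    · exfalso
      apply hM.1
      apply Subgroup.eq_top_of_card_eq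
      rw [hn, hN, h]
  obtain ⟨K, hK, hMK⟩ := Sylow.exists_subgroup_card_pow_prime_le p (m := n + 1)
    (by rw [hN]; exact pow_dvd_pow p hlt) M hn (Nat.le_succ n)
  have hKM : K ≠ M := by
    intro h
    rw [h, hn] at hK
    have := Nat.pow_right_injective hp.out.two_le hK
    omega
  have hKt : K = ⊤ := hM.2 K (lt_of_le_of_ne hMK (Ne.symm hKM))
  have h3 : p ^ (n + 1) = Nat.card G := by
    rw [← hK, hKt, Subgroup.card_top]
  have h4 := M.card_mul_index
  rw [hn, ← h3, pow_succ] at h4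
  exact Nat.eq_of_mul_eq_mul_left (pow_pos hp.out.pos n) h4

variable {F : Type} [Field F]

/-- `δ` is in the decomposition group of `P` -/
def InDec (P : Ideal (OO F)) (δ : GF F) : Prop := ∀ x : OO F, δ • x ∈ P ↔ x ∈ P

theorem inDec_iff {P : Ideal (OO F)} {δ : GF F} : InDec P δ ↔ δ ∈ MulAction.stabilizer (GF F) P := by
  rw [MulAction.mem_stabilizer_iff]
  constructor
  · intro h
    ext x
    rw [Ideal.mem_pointwise_smul_iff_inv_smul_mem]
    have := h (δ⁻¹ • x)
    rw [smul_inv_smul] at this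
    exact this.symm
  · intro h x
    conv_lhs => rw [← h]
    exact Ideal.smul_mem_pointwise_smul_iff

/-- The subgroup `U` has no normal subgroup `W` of index `p` (open) which contains the inertia groups at the primes
not dividing `t` and the decomposition groups at the primes above `p`. -/
def NoSplitG (p : ℕ) (t : 𝓞 F) (U : Subgroup (GF F)) : Prop :=
  ∀ W : Subgroup (GF F), W ≤ U → IsOpen (W : Set (GF F)) → (∀ x ∈ W, ∀ u ∈ U, u * x * u⁻¹ ∈ W) →
    W.relIndex U = p →
    (∀ Q : Ideal (OO F), Q.IsMaximal → algebraMap (𝓞 F) (OO F) t ∉ Q → ∀ τ, InInertia Q τ → τ ∈ U → τ ∈ W) →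
    ¬ ∀ Q : Ideal (OO F), Q.IsMaximal → (p : OO F) ∈ Q → ∀ δ, InDec Q δ → δ ∈ U → δ ∈ W

theorem inertia_dec {Q : Ideal (OO F)} {τ : GF F} (h : InInertia Q τ) : InDec Q τ := by
  intro x
  have h1 := h x
  constructor
  · intro h2
    have := Q.sub_mem h2 h1
    rwa [sub_sub_cancel] at this
  · intro h2
    have := Q.add_mem h1 h2
    rwa [sub_add_cancel] at this

theorem mod_openD [NumberField F] {p : ℕ} {t : 𝓞 F} [hp : Fact p.Prime] (U : Subgroup (GF F))
    (hUo : IsOpen (U : Set (GF F))) (hNS : NoSplitG p t U) (hone : OnePrime p (FF U))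
    {P : Ideal (OO F)} (hP : P.IsMaximal) (hpP : (p : OO F) ∈ P)
    (K : Subgroup (GF F)) [hKn : K.Normal] (hK : IsOpen (K : Set (GF F)))
    (hur : ∀ Q : Ideal (OO F), Q.IsMaximal → (p : OO F) ∉ Q → algebraMap (𝓞 F) (OO F) t ∉ Q → ∀ τ, InInertia Q τ → τ ∈ K)
    (hpow : ∀ u ∈ U, ∃ k : ℕ, u ^ p ^ k ∈ K) (u : GF F) (hu : u ∈ U) :
    ∃ d : GF F, InDec P d ∧ d ∈ U ∧ d⁻¹ * u ∈ K := by
  classical
  have hUc : IsClosed (U : Set (GF F)) := Subgroup.isClosed_of_isOpen _ hUo
  -- the finite `p`-group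
  let K' : Subgroup U := K.subgroupOf U
  have hK'n : K'.Normal := Subgroup.normal_subgroupOf
  have hcpt : CompactSpace U := isCompact_iff_compactSpace.1 hUc.isCompact
  have hK'o : IsOpen (K' : Set U) := hK.preimage continuous_subtype_val
  have hfin : Finite (U ⧸ K') := Subgroup.quotient_finite_of_isOpen _ hK'o
  have hpG : IsPGroup p (U ⧸ K') := by
    intro x
    obtain ⟨u, rfl⟩ := QuotientGroup.mk_surjective x
    obtain ⟨k, hk⟩ := hpow u.1 u.2
    refine ⟨k, ?_⟩
    rw [← QuotientGroup.mk_pow, QuotientGroup.eq_one_iff]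
    exact hk
  let H : Subgroup (U ⧸ K') :=
    ((MulAction.stabilizer (GF F) P).subgroupOf U).map (QuotientGroup.mk' K')
  have hHtop : H = ⊤ := by
    by_contra hne
    obtain ⟨M, hM, hle⟩ := (eq_top_or_exists_le_coatom H).resolve_left hne
    have hnil : Group.IsNilpotent (U ⧸ K') := hpG.isNilpotent
    have hMn : M.Normal := Subgroup.NormalizerCondition.normal_of_coatom M
      Group.normalizerCondition_of_isNilpotent hM
    have hMi : M.index = p := coatom_index hpG M hM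
    let M1 : Subgroup U := M.comap (QuotientGroup.mk' K')
    have hM1n : M1.Normal := hMn.comap _
    let M2 : Subgroup (GF F) := M1.map U.subtype
    have hin : ∀ (x : GF F) (hx : x ∈ U), (⟨x, hx⟩ : U) ∈ M1 → x ∈ M2 := by
      intro x hx h
      exact ⟨⟨x, hx⟩, h, rfl⟩
    have hM2U : M2 ≤ U := by
      rintro x ⟨y, -, rfl⟩
      exact y.2
    have hM2K : ∀ x ∈ U ⊓ K, x ∈ M2 := by
      intro x hx
      refine hin x hx.1 ?_
      show QuotientGroup.mk' K' ⟨x, hx.1⟩ ∈ M
      have : QuotientGroup.mk' K' (⟨x, hx.1⟩ : U) = 1 := (QuotientGroup.eq_one_iff _).2 hx.2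
      rw [this]
      exact M.one_mem
    have hM2D : ∀ x ∈ U, InDec P x → x ∈ M2 := by
      intro x hx hxI
      refine hin x hx ?_
      exact hle ⟨⟨x, hx⟩, inDec_iff.1 hxI, rfl⟩
    have hM2c : ∀ x ∈ M2, ∀ u ∈ U, u * x * u⁻¹ ∈ M2 := by
      rintro x ⟨y, hy, rfl⟩ u hu
      have := hM1n.conj_mem y hy ⟨u, hu⟩
      exact ⟨_, this, rfl⟩
    have hM2D' : ∀ Q : Ideal (OO F), Q.IsMaximal → (p : OO F) ∈ Q → ∀ δ, InDec Q δ → δ ∈ U →
        δ ∈ M2 := by
      intro Q hQ hpQ δ hδ hδU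
      obtain ⟨v, hv, hQv⟩ := exists_conj_U U hUc hone hP hQ hpP hpQ
      have h1 : InDec P (v⁻¹ * δ * v) := by
        rw [inDec_iff, MulAction.mem_stabilizer_iff] at hδ ⊢
        rw [mul_smul, mul_smul, ← hQv, hδ, hQv, inv_smul_smul]
      have h2 : v⁻¹ * δ * v ∈ U := U.mul_mem (U.mul_mem (U.inv_mem hv) hδU) hv
      have h3 := hM2c _ (hM2D _ h2 h1) v hv
      have e : v * (v⁻¹ * δ * v) * v⁻¹ = δ := by group
      rwa [e] at h3
    have hM2o : IsOpen (M2 : Set (GF F)) :=
      Subgroup.isOpen_mono (H₁ := U ⊓ K) (fun x hx => hM2K x hx) (hUo.inter hK)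
    have hidx : M2.relIndex U = p := by
      have h1 : M2.subgroupOf U = M1 := by
        ext x
        rw [Subgroup.mem_subgroupOf]
        constructor
        · rintro ⟨y, hy, hyx⟩
          have : y = x := Subtype.ext hyx
          rw [← this]
          exact hy
        · intro hx
          exact ⟨x, hx, rfl⟩
      rw [Subgroup.relIndex, h1, Subgroup.index_comap_of_surjective M
        (QuotientGroup.mk'_surjective K'), hMi]
    refine hNS M2 hM2U hM2o hM2c hidx ?_ hM2D'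
    intro Q hQ htQ τ hτ hτU
    by_cases hpQ : (p : OO F) ∈ Q
    · exact hM2D' Q hQ hpQ τ (inertia_dec hτ) hτU
    · exact hM2K _ ⟨hτU, hur Q hQ hpQ htQ τ hτ⟩
  have h1 : (QuotientGroup.mk' K' ⟨u, hu⟩ : U ⧸ K') ∈ H := by rw [hHtop]; trivial
  obtain ⟨y, hy, hyu⟩ := h1
  have h2' : (y⁻¹ * ⟨u, hu⟩ : U) ∈ K' := QuotientGroup.eq.1 hyu
  exact ⟨y.1, inDec_iff.2 hy, y.2, h2'⟩

/-- every translate of `y` is a translate by an element of the decomposition group -/
theorem orbit_valuesD [NumberField F] {p : ℕ} {t : 𝓞 F} [hp : Fact p.Prime] {M : Type} [AddCommGroup M]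
    [DistribMulAction (GF F) M] (U : Subgroup (GF F))
    (hUo : IsOpen (U : Set (GF F))) (hNS : NoSplitG p t U) (hone : OnePrime p (FF U))
    {P : Ideal (OO F)} (hP : P.IsMaximal) (hpP : (p : OO F) ∈ P) (y : M)
    (hst : IsOpen (MulAction.stabilizer (GF F) y : Set (GF F)))
    (hur : ∀ Q : Ideal (OO F), Q.IsMaximal → (p : OO F) ∉ Q → algebraMap (𝓞 F) (OO F) t ∉ Q → ∀ τ, InInertia Q τ →
      ∀ g : GF F, τ • (g • y) = g • y)
    (hpow : ∀ u ∈ U, ∀ g : GF F, ∃ k, u ^ p ^ k • (g • y) = g • y) :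
    ∀ g : GF F, ∃ d : GF F, (∀ x : OO F, d • x ∈ P ↔ x ∈ P) ∧ d • y = g • y := by
  have hUc : IsClosed (U : Set (GF F)) := Subgroup.isClosed_of_isOpen _ hUo
  set N := (MulAction.stabilizer (GF F) y).normalCore with hN
  have hmem : ∀ a : GF F, (∀ b : GF F, a • (b⁻¹ • y) = b⁻¹ • y) → a ∈ N := by
    intro a ha b
    rw [MulAction.mem_stabilizer_iff, mul_smul, mul_smul, ha b, smul_inv_smul]
  have hNo : IsOpen (N : Set (GF F)) := core_open hst
  have hfinO : Finite (MulAction.orbit (GF F) y) := by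
    have hfin : Finite (GF F ⧸ MulAction.stabilizer (GF F) y) :=
      Subgroup.quotient_finite_of_isOpen _ hst
    exact Finite.of_equiv _ (MulAction.orbitEquivQuotientStabilizer (GF F) y).symm
  have h1 : ∀ u ∈ U, ∃ h, InDec P h ∧ h ∈ U ∧ h⁻¹ * u ∈ N := by
    intro u hu
    exact mod_openD U hUo hNS hone hP hpP N hNo
      (fun Q hQ hpQ htQ τ hτ => hmem τ fun b => hur Q hQ hpQ htQ τ hτ b⁻¹)
      (fun u hu => by
        have h3 : ∀ y' : MulAction.orbit (GF F) y, ∃ k, u ^ p ^ k • (y' : M) = y' := by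
          rintro ⟨_, g, rfl⟩
          exact hpow u hu g
        choose k hk using h3
        have : Fintype (MulAction.orbit (GF F) y) := Fintype.ofFinite _
        refine ⟨Finset.univ.sup k, hmem _ fun b => ?_⟩
        have h4 := hk ⟨b⁻¹ • y, b⁻¹, rfl⟩
        have h5 : k ⟨b⁻¹ • y, b⁻¹, rfl⟩ ≤ Finset.univ.sup k := Finset.le_sup (Finset.mem_univ _)
        obtain ⟨e, he⟩ := Nat.exists_eq_add_of_le h5
        rw [he, pow_add, pow_mul]
        have h6 : ∀ i : ℕ, (u ^ p ^ k ⟨b⁻¹ • y, b⁻¹, rfl⟩) ^ i • (b⁻¹ • y) = b⁻¹ • y := by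
          intro i
          induction i with
          | zero => simp
          | succ i ih => rw [pow_succ, mul_smul, h4, ih]
        exact h6 _) u hu
  have hfix : ∀ a ∈ N, a • y = y := fun a ha => Subgroup.normalCore_le _ ha
  intro g
  have hgP : (g • P).IsMaximal := by
    rw [Ideal.pointwise_smul_def]
    exact Ideal.map_isMaximal_of_equiv (MulSemiringAction.toRingEquiv (GF F) (OO F) g)
  have hpg : (p : OO F) ∈ g • P := by
    rw [Ideal.mem_pointwise_smul_iff_inv_smul_mem]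
    have : g⁻¹ • (p : OO F) = (p : OO F) := by
      have := map_natCast (MulSemiringAction.toRingHom (GF F) (OO F) g⁻¹) p
      exact this
    rw [this]
    exact hpP
  obtain ⟨u, hu, hug⟩ := exists_conj_U U hUc hone hP hgP hpP hpg
  obtain ⟨h, hh, -, hhu⟩ := h1 u hu
  refine ⟨h * (u⁻¹ * g), ?_, ?_⟩
  · intro x
    have h2 : (u⁻¹ * g) • P = P := by
      rw [mul_smul, hug, inv_smul_smul]
    have h3 : (u⁻¹ * g) • x ∈ P ↔ x ∈ P := by
      conv_lhs => rw [← h2]
      exact Ideal.smul_mem_pointwise_smul_iff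
    rw [mul_smul, ← h3]
    exact hh ((u⁻¹ * g) • x)
  · -- `h * u⁻¹ ∈ N`
    have hNn : N.Normal := by rw [hN]; infer_instance
    have h5 : (u * h⁻¹) ∈ N := by
      have h6 := hNn.conj_mem _ hhu u
      have e : u * (h⁻¹ * u) * u⁻¹ = u * h⁻¹ := by group
      rwa [e] at h6
    have h7 : h * u⁻¹ ∈ N := by
      have h8 := N.inv_mem h5
      have e : (u * h⁻¹)⁻¹ = h * u⁻¹ := by group
      rwa [e] at h8
    have h9 : g⁻¹ * (h * u⁻¹) * g ∈ N := by
      have h10 := hNn.conj_mem _ h7 g⁻¹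
      rwa [inv_inv] at h10
    have h11 := hfix _ h9
    have e : h * (u⁻¹ * g) = g * (g⁻¹ * (h * u⁻¹) * g) := by group
    rw [e, mul_smul, h11]

end Pool.Agent.H429.T5
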