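import Pool.Agent.H429.T5.Ex

/-!
# Project T5 (helper429): elliptic curves over number fields in the 2-tower of `ℚ` (jobs)

`GF K = Gal(Kbar/K)`, `OO K = 𝓞 Kbar`, `InInertia Q τ` (`∀ x, τ • x - x ∈ Q`), `InDec`, `NoSplitG`, `mod_openD`: Main.lean; `noSplit_Q`: Ex.lean.
-/

set_option autoImplicit false

namespace Pool.Agent.H429.T5

open NumberField Pool.Agent.W569.FM Pool.Agent.W215.FM Pool.Agent.X290.Reg
open scoped Pointwise

/-- JOB TOW.  The base condition for the fields in the maximal 2-extension of `ℚ` unramified outside `2 q`.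
Proof.  Let `e : AlgebraicClosure ℚ ≃ AlgebraicClosure K` (fields; `IsAlgClosure.equiv ℚ _ _`), inducing `OO ℚ ≃+* OO K`, and
`φ : GF K → GF ℚ`, `φ σ = e⁻¹ σ e`, injective, image = the automorphisms that fix `e⁻¹ K`.  Choose a `K`-embedding of `M` in
`AlgebraicClosure K`; let `N1 ≤ GF ℚ` be the subgroup fixing `e⁻¹(M)`: open, normal, of index `2^a`, `N1 ≤ φ(GF K)`.
(hI) for every maximal `Q` with `2, q ∉ Q` and `b ∈ GF ℚ`: `τ ∈ I_Q` implies `τ ∈ N1` (the restriction of `τ` to `e⁻¹ M` is in an inertia group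
of `M/ℚ` at a prime which does not contain `2`, `q`, so it is trivial by hypothesis `hunr`).
First assertion: let `W ≤ GF K` be open of index 2 with the properties in `NoSplitG`.  `N` = the normal core in `GF ℚ` of `φ(W)`; it is
open (`φ(W)` is open: of finite index and closed, or contains an open subgroup).  (hur) `τ ∈ I_Q`, `2, q ∉ Q`: for all `b`,
`b τ b⁻¹ ∈ I_{bQ} ∩ N1`, so it is `φ τ'`, `τ'` in an inertia group of `OO K` at a prime not dividing `q`, so `τ' ∈ W`; so `τ ∈ N`.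
(hpow) `g^(2^a) ∈ N1`, and for `h ∈ N1` and all `b`: `b h b⁻¹ ∈ N1 ≤ φ(GF K)`, so `(b h b⁻¹)² ∈ φ(W)`; so `g^(2^(a+1)) ∈ N`.
`mod_openD` for `F = ℚ`, `U = ⊤`, `t = q`, `noSplit_Q`, any maximal `P ∋ 2` gives for `σ ∈ GF K` an element `d ∈ D_P`, `d⁻¹ φ(σ) ∈ N ≤ φ(W)`,
so `d = φ(δ)`, `δ` in the decomposition group of `e(P)`, so `δ ∈ W` and `σ ∈ W`.  So `W = ⊤`, contradiction.  (`OnePrime 2 (FF ⊤)` over `ℚ`:
every element of `𝓞 (FF ⊤)` is an integer; cf. `one_bot` in Results/MP_52423f_nt/GoodReductionOutsideTwoPrimes.lean.)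
Second assertion: let `P, Q` be maximal ideals of `𝓞 K` containing `2`, `P', Q'` maximal ideals of `OO K` above them, `Q' = g P'` with `g ∈ GF ℚ`
(transitivity over `ℤ`: `exists_conj_U` for `U = ⊤`), `g = n d`, `d ∈ D_{P'}`, `n ∈ N1` (`mod_openD` with `N = N1`), so `Q' = n P'`, `n ∈ φ(GF K)`,
and `Q = P`. -/
def S_TOW : Prop := ∀ (q : ℕ), q.Prime → q % 8 = 3 ∨ q % 8 = 5 →
  ∀ (K M : Type) [Field K] [NumberField K] [Field M] [NumberField M] [Algebra K M] [IsGalois ℚ M] (a : ℕ),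
    Module.finrank ℚ M = 2 ^ a →
    (∀ Q : Ideal (𝓞 M), Q.IsMaximal → ((2 : ℕ) : 𝓞 M) ∉ Q → ((q : ℕ) : 𝓞 M) ∉ Q → ∀ g : M ≃ₐ[ℚ] M,
      (∀ x y : 𝓞 M, (y : M) = g (x : M) → y - x ∈ Q) → g = 1) →
    NoSplitG 2 ((q : ℕ) : 𝓞 K) (⊤ : Subgroup (GF K)) ∧
    ∀ P Q : Ideal (𝓞 K), P.IsMaximal → Q.IsMaximal → ((2 : ℕ) : 𝓞 K) ∈ P → ((2 : ℕ) : 𝓞 K) ∈ Q → P = Q

/-- JOB DICH.  The localization of `OO K` at a prime is a valuation ring.
Proof.  `z = 0`: trivial.  Otherwise let `L = ℚ(z)` (or `K(z)`) in `Kbar`, a number field; `z = a / b` with `a, b ∈ 𝓞 L`.  The fractional ideal `(a, b)` is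
invertible: there are `x, y ∈ L` with `x a + y b = 1` and `x a, x b, y a, y b ∈ 𝓞 L`.  Map to `OO K`.  If `y b ∉ Q`: `s = y b`, `s z = y a`.
If `y b ∈ Q` then `x a = 1 - y b ∉ Q`; `s = x a`, `t = x b`: `s = t z`; if `t ∈ Q` the second alternative holds, if `t ∉ Q` the first
one (`t z = s ∈ OO K`). -/
def S_DICH : Prop := ∀ (K : Type) [Field K] [NumberField K] (Q : Ideal (OO K)), Q.IsMaximal →
  ∀ z : AlgebraicClosure K, (∃ s t : OO K, s ∉ Q ∧ (s : AlgebraicClosure K) * z = t) ∨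
    ∃ s t : OO K, s ∉ Q ∧ t ∈ Q ∧ (s : AlgebraicClosure K) = t * z

/-- JOB SIGN.  Inertia fixes the square roots.
Proof.  Write `Int z` for the first alternative of `S_DICH` and `Sm z` for `∃ s t, s ∉ Q ∧ t ∈ Q ∧ s z = t`.
(A) `Int z` and `τ z = - z` imply `Sm z`: `w = s z ∈ OO K`, `s (τ w - w) = - (τ s + s) w`, and `τ w - w ∈ Q`, `τ s - s ∈ Q`, so `2 s w ∈ Q`, `w ∈ Q`.
(B) `Int (z²)` implies `Int z` (`(s z)² ∈ OO K` is integral over `OO K`, so `s z` is integral).  Sums and products of `Int`/`Sm` are clear.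
(1) `r 0, r 1, r 2` are not all moved: each `τ (r i) = ± r i`; if `τ (r i) = - r i ≠ r i` for some `i`; let `j, k` be the others.  If `r j = 0` or
`r k = 0` (say `r k = 0`) then `(r i)² = e k - e i` is integral, `Int (r i)`, so by (A) `Sm (r i)`, `e k - e i ∈ Q`, contradiction.  If all three are not
zero the product formula shows that exactly one of `r j`, `r k` is also changed, say `τ (r j) = - r j`, `τ (r k) = r k`.  If `Int (r i)` then
`Int (r j)` (B), so `Sm` for both by (A), and `e j - e i ∈ Q`, contradiction.  If not `Int (r i)` then not `Int (r k)` (B), so by `S_DICH` `Sm (1/r k)`;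
`z = r i / r k`, `z² = 1 + (e k - e i) / (r k)²`, so `Int z` by (B), `τ z = - z`, `Sm z` by (A), so `Sm 1`: `1 ∈ Q`. -/
def S_SIGN : Prop := ∀ (K : Type) [Field K] [NumberField K] (Q : Ideal (OO K)), Q.IsMaximal → ((2 : ℕ) : OO K) ∉ Q →
  ∀ (τ : GF K), InInertia Q τ → ∀ (e : Fin 3 → OO K) (r : Fin 3 → AlgebraicClosure K),
    (∀ i j, i ≠ j → e i - e j ∉ Q) → (∀ i, τ • e i = e i) →
    (∀ i j, r i ^ 2 - r j ^ 2 = ((e j - e i : OO K) : AlgebraicClosure K)) →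
    (∀ i, τ (r i) ^ 2 = r i ^ 2) → τ (r 0 * r 1 * r 2) = r 0 * r 1 * r 2 → ∀ i, τ (r i) = r i

def J_SIGN : Prop := S_DICH → S_SIGN

open WeierstrassCurve WeierstrassCurve.Affine in
/-- JOB HALF.  Halving a point.  `Ω` a field of characteristic `0`, the curve `y² = (x - e 0)(x - e 1)(x - e 2)`, `(X, Y)` a point on it, `Y ≠ 0`,
and `(X2, Y2)` its double.  Proof.  `u i = X - e i`, `u 0 u 1 u 2 = Y²`; put `r 0 = (u0 u1 + u0 u2 - u1 u2) / (2 Y)`,
`r 1 = (u0 u1 + u1 u2 - u0 u2) / (2 Y)`, `r 2 = (u0 u2 + u1 u2 - u0 u1) / (2 Y)`; so `r0 + r1 = u0 u1 / Y` etc. and the formulas for `X`, `Y` follow.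
`X2 = λ² - A - 2 X` and `Y2` from the duplication formula in Mathlib (`Point.add_self_of_Y_ne`, `slope_of_Y_ne`, `addX`, `addY`), with
`A = -(e0 + e1 + e2)`; `Y2² = (X2 - e 0)(X2 - e 1)(X2 - e 2) = (r0 r1 r2)²`. -/
def S_HALF : Prop := ∀ (Ω : Type) [Field Ω] [CharZero Ω] [DecidableEq Ω] (V : WeierstrassCurve Ω) (e : Fin 3 → Ω) (X Y : Ω)
  (h : V.toAffine.Nonsingular X Y), V.a₁ = 0 → V.a₃ = 0 → V.a₂ = -(e 0 + e 1 + e 2) →
  V.a₄ = e 0 * e 1 + e 0 * e 2 + e 1 * e 2 → V.a₆ = -(e 0 * e 1 * e 2) → Y ≠ 0 →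
  ∃ (X2 Y2 : Ω) (h2 : V.toAffine.Nonsingular X2 Y2) (r : Fin 3 → Ω),
    Point.some X Y h + Point.some X Y h = Point.some X2 Y2 h2 ∧
    (∀ i, r i ^ 2 = X2 - e i) ∧ Y2 ^ 2 = (r 0 * r 1 * r 2) ^ 2 ∧
    X = e 0 + (r 0 + r 1) * (r 0 + r 2) ∧ Y = (r 0 + r 1) * (r 0 + r 2) * (r 1 + r 2)

end Pool.Agent.H429.T5
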